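import Pool.Agent.CBinom.Eval

/-!
The Taylor coefficients of `S_{pN}(x) - S_N(x^p)` modulo `p^2 N^2 C(2N, N)`.
-/

namespace Pool.Agent.CBinom

open Finset

/-- the product of the numbers below `p * N` that are not divisible by `p` -/
def u (p N : ℕ) : ℕ := ∏ i ∈ range N, ∏ j ∈ Ico 1 p, (p * i + j)

theorem u_succ (p N : ℕ) : u p (N + 1) = u p N * ∏ j ∈ Ico 1 p, (p * N + j) := by
  rw [u, prod_range_succ, u]

theorem factorial_mul_eq (p : ℕ) (hp : 1 ≤ p) (N : ℕ) :
    (p * N).factorial = p ^ N * N.factorial * u p N := by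
  induction N with
  | zero => simp [u]
  | succ N ih =>
    have h1 := Nat.factorial_mul_ascFactorial (p * N) p
    have h2 : (p * N + 1).ascFactorial p = (∏ j ∈ Ico 1 p, (p * N + j)) * (p * N + p) := by
      rw [Nat.ascFactorial_eq_prod_range]
      obtain ⟨q, rfl⟩ := Nat.exists_eq_succ_of_ne_zero (by omega : p ≠ 0)
      rw [prod_range_succ, prod_Ico_eq_prod_range]
      have e : q.succ - 1 = q := by omega
      rw [e]
      congr 1
      · apply prod_congr rfl
        intro i _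
        ring
      · rw [Nat.succ_eq_add_one]; ring
    rw [mul_add, mul_one, ← h1, h2, ih, u_succ, Nat.factorial_succ]
    ring

theorem u_pos (p N : ℕ) : 0 < u p N := by
  rw [u]
  apply prod_pos
  intro i _
  apply prod_pos
  intro j hj
  have := mem_Ico.mp hj
  omega

theorem u_not_dvd {p : ℕ} (hp : p.Prime) (N : ℕ) : ¬ (p : ℤ) ∣ (u p N : ℤ) := by
  intro h
  have h1 : p ∣ u p N := by exact_mod_cast h
  rw [u] at h1
  obtain ⟨i, _, hi⟩ := (Nat.prime_iff.mp hp).exists_mem_finset_dvd h1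
  obtain ⟨j, hj, hj2⟩ := (Nat.prime_iff.mp hp).exists_mem_finset_dvd hi
  have hj' := mem_Ico.mp hj
  have h3 : p ∣ j := (Nat.dvd_add_right (Dvd.intro _ rfl)).mp hj2
  exact absurd (Nat.le_of_dvd (by omega) h3) (by omega)

/-- the product of `(p l)^2 - b^2` over the `b < p N` not divisible by `p` -/
def Pi (p N : ℕ) (l : ℤ) : ℤ := ∏ i ∈ range N, ∏ j ∈ Ico 1 p, (((p : ℤ) * l) ^ 2 - ((p * i + j : ℕ) : ℤ) ^ 2)

theorem u_add (p m N : ℕ) :
    (u p (m + N + N) : ℤ) = u p m * Pi p N ((m + N : ℕ) : ℤ) := by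
  have h1 : u p (m + N + N) = u p m * (∏ i ∈ range N, ∏ j ∈ Ico 1 p, (p * (m + i) + j)) *
      (∏ i ∈ range N, ∏ j ∈ Ico 1 p, (p * (m + N + i) + j)) := by
    rw [u, prod_range_add, prod_range_add, u]
  have h2 : ((∏ i ∈ range N, ∏ j ∈ Ico 1 p, (p * (m + i) + j) : ℕ) : ℤ)
      = ∏ i ∈ range N, ∏ j ∈ Ico 1 p, ((p : ℤ) * ((m + N : ℕ) : ℤ) - ((p * i + j : ℕ) : ℤ)) := by
    push_cast
    rw [← prod_range_reflect]
    apply prod_congr rfl
    intro i hi
    have hi' : i < N := mem_range.mp hi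
    rcases Nat.eq_zero_or_pos p with hp0 | hp0
    · subst hp0; simp
    · apply prod_bij' (fun j _ => p - j) (fun j _ => p - j)
      · intro j hj
        have := mem_Ico.mp hj
        exact mem_Ico.mpr (by omega)
      · intro j hj
        have := mem_Ico.mp hj
        exact mem_Ico.mpr (by omega)
      · intro j hj
        have := mem_Ico.mp hj
        show p - (p - j) = j
        omega
      · intro j hj
        have := mem_Ico.mp hj
        show p - (p - j) = j
        omega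
      · intro j hj
        have hj2 := mem_Ico.mp hj
        have e1 : ((N - 1 - i : ℕ) : ℤ) = (N : ℤ) - 1 - i := by omega
        have e2 : ((p - j : ℕ) : ℤ) = (p : ℤ) - j := by omega
        rw [e1, e2]
        ring
  rw [h1]
  rw [Nat.cast_mul, Nat.cast_mul, h2, Pi, mul_assoc]
  congr 1
  push_cast
  rw [← prod_mul_distrib]
  apply prod_congr rfl
  intro i _
  rw [← prod_mul_distrib]
  apply prod_congr rfl
  intro j _
  ring


theorem prod_sub_dvd {ι : Type*} (t : Finset ι) (f g : ι → ℤ) (d : ℤ)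
    (h : ∀ i ∈ t, d ∣ f i - g i) : d ∣ (∏ i ∈ t, f i) - ∏ i ∈ t, g i := by
  classical
  induction t using Finset.induction_on with
  | empty => simp
  | insert a t ha ih =>
    rw [prod_insert ha, prod_insert ha]
    obtain ⟨c1, h1⟩ := h a (mem_insert_self a t)
    obtain ⟨c2, h2⟩ := ih fun i hi => h i (mem_insert_of_mem hi)
    exact ⟨c1 * (∏ i ∈ t, f i) + g a * c2, by linear_combination (∏ i ∈ t, f i) * h1 + g a * h2⟩

theorem Pi_mod (p N : ℕ) (l : ℤ) :
    ((p : ℤ) * l) ^ 2 ∣ Pi p N l - ((-1) ^ (p - 1)) ^ N * (u p N : ℤ) ^ 2 := by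
  have h1 : ((-1 : ℤ) ^ (p - 1)) ^ N * (u p N : ℤ) ^ 2
      = ∏ i ∈ range N, ((-1) ^ (p - 1) * (∏ j ∈ Ico 1 p, ((p * i + j : ℕ) : ℤ)) ^ 2) := by
    rw [prod_mul_distrib, prod_const, card_range, u, Nat.cast_prod, ← prod_pow]
    congr 1
    apply prod_congr rfl
    intro i _
    rw [Nat.cast_prod]
  rw [h1, Pi]
  apply prod_sub_dvd
  intro i _
  have h2 : (-1 : ℤ) ^ (p - 1) * (∏ j ∈ Ico 1 p, ((p * i + j : ℕ) : ℤ)) ^ 2
      = ∏ j ∈ Ico 1 p, (-(((p * i + j : ℕ) : ℤ) ^ 2)) := by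
    have h3 : ∏ j ∈ Ico 1 p, (-(((p * i + j : ℕ) : ℤ) ^ 2))
        = ∏ j ∈ Ico 1 p, ((-1) * (((p * i + j : ℕ) : ℤ) ^ 2)) :=
      prod_congr rfl fun j _ => by ring
    rw [h3, prod_mul_distrib, prod_const, Nat.card_Ico, prod_pow]
  rw [h2]
  apply prod_sub_dvd
  intro j _
  exact ⟨1, by ring⟩

/-- the multinomial coefficient `(N + l)! / (N!^2 (l - N)!)` -/
def M (N l : ℕ) : ℕ := (2 * N).choose N * (N + l).choose (2 * N)

theorem M_eq (N m : ℕ) :
    (N + (m + N)).factorial = N.factorial * N.factorial * m.factorial * M N (m + N) := by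
  have h1 := Nat.choose_mul_factorial_mul_factorial (show N ≤ 2 * N by omega)
  have h2 := Nat.choose_mul_factorial_mul_factorial (show 2 * N ≤ N + (m + N) by omega)
  have e1 : 2 * N - N = N := by omega
  have e2 : N + (m + N) - 2 * N = m := by omega
  rw [e1] at h1
  rw [e2] at h2
  rw [← h2, ← h1, M]
  ring

theorem M_rel {p : ℕ} (hp : 1 ≤ p) (N m : ℕ) :
    (u p N : ℤ) ^ 2 * M (p * N) (p * (m + N)) = M N (m + N) * Pi p N ((m + N : ℕ) : ℤ) := by
  have h1 := M_eq N m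
  have h2 := M_eq (p * N) (p * m)
  have e1 : p * N + (p * m + p * N) = p * (m + N + N) := by ring
  have e2 : p * m + p * N = p * (m + N) := by ring
  have e3 : N + (m + N) = m + N + N := by ring
  rw [e1, e2, factorial_mul_eq p hp, factorial_mul_eq p hp, factorial_mul_eq p hp] at h2
  rw [e3] at h1
  have h3 := u_add p m N
  have hum : (0 : ℤ) < u p m := by exact_mod_cast u_pos p m
  have hN : (0 : ℤ) < N.factorial := by exact_mod_cast N.factorial_pos
  have hm : (0 : ℤ) < m.factorial := by exact_mod_cast m.factorial_pos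
  have hp0 : (0 : ℤ) < p := by exact_mod_cast hp
  have h1' : ((m + N + N).factorial : ℤ) = N.factorial * N.factorial * m.factorial * M N (m + N) := by
    exact_mod_cast h1
  have h2' : (p : ℤ) ^ (m + N + N) * ((m + N + N).factorial : ℤ) * u p (m + N + N)
      = (p : ℤ) ^ N * N.factorial * u p N * ((p : ℤ) ^ N * N.factorial * u p N) *
        ((p : ℤ) ^ m * m.factorial * u p m) * M (p * N) (p * (m + N)) := by
    exact_mod_cast h2
  rw [h1', h3, pow_add, pow_add] at h2'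
  have hc : (p : ℤ) ^ m * (p : ℤ) ^ N * (p : ℤ) ^ N * N.factorial * N.factorial * m.factorial * u p m ≠ 0 := by
    positivity
  apply mul_left_cancel₀ hc
  linear_combination -h2'

theorem c_rel {p : ℕ} (hp : 1 ≤ p) (N : ℕ) :
    ((2 * (p * N)).choose (p * N) : ℤ) * (u p N : ℤ) ^ 2 = (2 * N).choose N * u p (2 * N) := by
  have h1 := Nat.choose_mul_factorial_mul_factorial (show N ≤ 2 * N by omega)
  have h2 := Nat.choose_mul_factorial_mul_factorial (show p * N ≤ 2 * (p * N) by omega)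
  have e1 : 2 * N - N = N := by omega
  have e2 : 2 * (p * N) - p * N = p * N := by omega
  have e3 : 2 * (p * N) = p * (2 * N) := by ring
  rw [e1] at h1
  rw [e2, factorial_mul_eq p hp] at h2
  rw [show (2 * (p * N)).factorial = (p * (2 * N)).factorial by rw [e3], factorial_mul_eq p hp] at h2
  have hN : (0 : ℤ) < N.factorial := by exact_mod_cast N.factorial_pos
  have hp0 : (0 : ℤ) < p := by exact_mod_cast hp
  have h1' : ((2 * N).choose N : ℤ) * N.factorial * N.factorial = (2 * N).factorial := by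
    exact_mod_cast h1
  have h2' : ((2 * (p * N)).choose (p * N) : ℤ) * ((p : ℤ) ^ N * N.factorial * u p N) *
      ((p : ℤ) ^ N * N.factorial * u p N) = (p : ℤ) ^ (2 * N) * (2 * N).factorial * u p (2 * N) := by
    exact_mod_cast h2
  rw [← h1', two_mul N, pow_add, ← two_mul N] at h2'
  have hc : (p : ℤ) ^ N * (p : ℤ) ^ N * N.factorial * N.factorial ≠ 0 := by positivity
  apply mul_left_cancel₀ hc
  linear_combination h2'


theorem choose_abs (a b : ℕ) (ha : 1 ≤ a) (hb : 1 ≤ b) :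
    (a : ℚ) * ((a - 1).choose (b - 1) : ℚ) = b * (a.choose b : ℚ) := by
  obtain ⟨a', rfl⟩ := Nat.exists_eq_succ_of_ne_zero (by omega : a ≠ 0)
  obtain ⟨b', rfl⟩ := Nat.exists_eq_succ_of_ne_zero (by omega : b ≠ 0)
  have h := Nat.add_one_mul_choose_eq a' b'
  have h2 : (((a' + 1) * a'.choose b' : ℕ) : ℚ) = (((a' + 1).choose (b' + 1) * (b' + 1) : ℕ) : ℚ) := by
    rw [h]
  simp only [Nat.succ_eq_add_one, Nat.add_sub_cancel]
  push_cast at h2 ⊢
  linarith

/-- coefficients of index prime to `p` -/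
theorem s_prime {p : ℕ} (hp : p.Prime) (N : ℕ) (hN : 1 ≤ N) (k : ℕ) (hk : ¬ p ∣ k) :
    DD p (2 * (p : ℤ) ^ 2 * (N : ℤ) ^ 2 * (2 * N).choose N) (s (p * N) k) := by
  have hp1 := hp.one_lt
  have hk0 : k ≠ 0 := by rintro rfl; exact hk (dvd_zero p)
  have hpN : 1 ≤ p * N := Nat.mul_pos hp.pos hN
  refine ⟨-((-1) ^ (k + p * N)) * u p (2 * N) * (p * N + k).choose (2 * (p * N)),
    k * (p * N + k) * (u p N) ^ 2, ?_, ?_⟩
  · intro h
    have hpr := Nat.prime_iff_prime_int.mp hp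
    rcases hpr.dvd_or_dvd h with h1 | h1
    · rcases hpr.dvd_or_dvd h1 with h2 | h2
      · exact hk (by exact_mod_cast h2)
      · have h3 : (p : ℤ) ∣ k := (Int.dvd_add_right (Dvd.intro _ rfl)).mp h2
        exact hk (by exact_mod_cast h3)
    · exact u_not_dvd hp N (hpr.dvd_of_dvd_pow h1)
  · rw [s, if_neg hk0]
    have h1 := choose_abs (p * N + k) (2 * (p * N)) (by omega) (by omega)
    have h2 : (((2 * (p * N)).choose (p * N) : ℤ) : ℚ) * ((u p N : ℤ) : ℚ) ^ 2
        = (((2 * N).choose N : ℤ) : ℚ) * ((u p (2 * N) : ℤ) : ℚ) := by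
      exact_mod_cast c_rel hp.one_le N
    have hk' : (k : ℚ) ≠ 0 := by exact_mod_cast hk0
    push_cast at h1 h2 ⊢
    rw [div_mul_eq_mul_div, div_eq_iff hk']
    generalize (-1 : ℚ) ^ (k + p * N) = σ
    generalize (((2 * (p * N)).choose (p * N) : ℕ) : ℚ) = c' at h2 ⊢
    generalize (((p * N + k - 1).choose (2 * (p * N) - 1) : ℕ) : ℚ) = a' at h1 ⊢
    generalize (((p * N + k).choose (2 * (p * N)) : ℕ) : ℚ) = b' at h1 ⊢
    linear_combination (-((p : ℚ) * N) * c' * σ * k * (u p N : ℚ) ^ 2) * h1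
      - (2 * (p : ℚ) ^ 2 * (N : ℚ) ^ 2 * σ * b' * k) * h2

/-- coefficients of index divisible by `p`, for odd `p` -/
theorem s_mult {p : ℕ} (hp : p.Prime) (hp2 : p ≠ 2) (N : ℕ) (hN : 1 ≤ N) (l : ℕ) (hl : 1 ≤ l) :
    DD p ((p : ℤ) ^ 2 * (N : ℤ) ^ 2 * (2 * N).choose N) (s (p * N) (p * l) - s N l) := by
  have hp1 := hp.one_lt
  have hodd : Odd p := hp.odd_of_ne_two hp2
  have hpl : p * l ≠ 0 := by positivity
  have hl0 : l ≠ 0 := by omega
  have hpN : 1 ≤ p * N := Nat.mul_pos hp.pos hN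
  have hsgn : (-1 : ℚ) ^ (p * l + p * N) = (-1) ^ (l + N) := by
    rw [← mul_add, pow_mul, hodd.neg_one_pow]
  rcases Nat.lt_or_ge l N with hlt | hge
  · have h1 : (N + l - 1).choose (2 * N - 1) = 0 := Nat.choose_eq_zero_of_lt (by omega)
    have h2 : (p * N + p * l - 1).choose (2 * (p * N) - 1) = 0 := by
      apply Nat.choose_eq_zero_of_lt
      have : p * l < p * N := Nat.mul_lt_mul_of_pos_left hlt hp.pos
      omega
    rw [s, s, if_neg hpl, if_neg hl0, h1, h2]
    simpa using DD.zero hp _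
  · obtain ⟨m, rfl⟩ := Nat.exists_eq_add_of_le' hge
    obtain ⟨w, hw⟩ := Pi_mod p N ((m + N : ℕ) : ℤ)
    have hrel := M_rel hp.one_le N m
    have hpar : ((-1 : ℤ) ^ (p - 1)) ^ N = 1 := by
      have : Even (p - 1) := hodd.tsub_odd odd_one
      rw [this.neg_one_pow, one_pow]
    rw [hpar, one_mul] at hw
    have hM : M N (m + N) = (2 * N).choose N * (N + (m + N)).choose (2 * N) := rfl
    have hM' : M (p * N) (p * (m + N)) = (2 * (p * N)).choose (p * N) *
        (p * N + p * (m + N)).choose (2 * (p * N)) := rfl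
    have h1 := choose_abs (N + (m + N)) (2 * N) (by omega) (by omega)
    have h2 := choose_abs (p * N + p * (m + N)) (2 * (p * N)) (by omega) (by omega)
    rw [hM, hM'] at hrel
    have h1' : ((N : ℚ) + (m + N)) * (((N + (m + N) - 1).choose (2 * N - 1) : ℕ) : ℚ)
        = 2 * N * (((N + (m + N)).choose (2 * N) : ℕ) : ℚ) := by
      push_cast at h1 ⊢; linarith
    have h2' : ((N : ℚ) + (m + N)) * (((p * N + p * (m + N) - 1).choose (2 * (p * N) - 1) : ℕ) : ℚ)
        = 2 * N * (((p * N + p * (m + N)).choose (2 * (p * N)) : ℕ) : ℚ) := by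
      have hp0 : (p : ℚ) ≠ 0 := by exact_mod_cast hp.ne_zero
      apply mul_left_cancel₀ hp0
      push_cast at h2 ⊢
      linarith
    have hrel' : (u p N : ℚ) ^ 2 * ((((2 * (p * N)).choose (p * N) : ℕ) : ℚ) *
        (((p * N + p * (m + N)).choose (2 * (p * N)) : ℕ) : ℚ))
        = (((2 * N).choose N : ℕ) : ℚ) * (((N + (m + N)).choose (2 * N) : ℕ) : ℚ) *
          (Pi p N ((m + N : ℕ) : ℤ) : ℤ) := by
      exact_mod_cast hrel
    have hw' : ((Pi p N ((m + N : ℕ) : ℤ) : ℤ) : ℚ) - (u p N : ℚ) ^ 2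
        = ((p : ℚ) * (m + N)) ^ 2 * w := by
      exact_mod_cast hw
    refine ⟨-((-1) ^ (m + N + N)) * (2 * ((N + (m + N)).choose (2 * N) : ℕ)
      - ((N + (m + N) - 1).choose (2 * N - 1) : ℕ)) * w, (u p N : ℤ) ^ 2, ?_, ?_⟩
    · intro h
      exact u_not_dvd hp N ((Nat.prime_iff_prime_int.mp hp).dvd_of_dvd_pow h)
    · rw [s, s, if_neg hpl, if_neg hl0, hsgn]
      have hl' : ((m : ℚ) + N) ≠ 0 := by
        have : (0 : ℚ) < N := by exact_mod_cast hN
        positivity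
      have hNl : ((N : ℚ) + (m + N)) ≠ 0 := by
        have : (0 : ℚ) < N := by exact_mod_cast hN
        positivity
      have hp0 : (p : ℚ) ≠ 0 := by exact_mod_cast hp.ne_zero
      apply mul_left_cancel₀ hNl
      apply mul_left_cancel₀ hl'
      push_cast
      generalize (-1 : ℚ) ^ (m + N + N) = σ
      generalize (((2 * (p * N)).choose (p * N) : ℕ) : ℚ) = c' at hrel' ⊢
      generalize (((p * N + p * (m + N) - 1).choose (2 * (p * N) - 1) : ℕ) : ℚ) = a' at h2' ⊢
      generalize (((p * N + p * (m + N)).choose (2 * (p * N)) : ℕ) : ℚ) = b' at h2' hrel' ⊢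
      generalize (((2 * N).choose N : ℕ) : ℚ) = c at hrel' ⊢
      generalize (((N + (m + N) - 1).choose (2 * N - 1) : ℕ) : ℚ) = a at h1' ⊢
      generalize (((N + (m + N)).choose (2 * N) : ℕ) : ℚ) = b at h1' hrel' ⊢
      generalize ((Pi p N ((m + N : ℕ) : ℤ) : ℤ) : ℚ) = ϖ at hrel' hw'
      have e5 : -((p : ℚ) * N * c') * σ * a' / (p * (m + N)) = -(N * c') * σ * a' / (m + N) := by
        rw [div_eq_div_iff (by positivity) hl']
        ring
      rw [e5]
      have e6 : -((N : ℚ) * c') * σ * a' / (m + N) - -(N * c) * σ * a / (m + N)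
          = (N * σ * (c * a - c' * a')) / (m + N) := by ring
      rw [e6]
      have e7 : ((m : ℚ) + N) * ((N + (m + N)) * ((N * σ * (c * a - c' * a')) / (m + N) * (u p N : ℚ) ^ 2))
          = (N * σ * (c * a - c' * a')) * ((N + (m + N)) * (u p N : ℚ) ^ 2) := by
        field_simp
      rw [e7]
      linear_combination (N : ℚ) * σ * c * (u p N : ℚ) ^ 2 * h1' - (N : ℚ) * σ * c' * (u p N : ℚ) ^ 2 * h2'
        - 2 * (N : ℚ) ^ 2 * σ * hrel' - 2 * (N : ℚ) ^ 2 * σ * c * b * hw'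
        - (m + N) * (p : ℚ) ^ 2 * N ^ 2 * c * σ * w * h1'


theorem DD.mono {p : ℕ} {d e : ℤ} {x : ℚ} (h : DD p d x) (hd : e ∣ d) : DD p e x := by
  obtain ⟨a, b, hb, h⟩ := h
  obtain ⟨c, rfl⟩ := hd
  exact ⟨c * a, b, hb, by rw [h]; push_cast; ring⟩

theorem E_coeff {p : ℕ} (hp : p.Prime) (hp2 : p ≠ 2) (N : ℕ) (hN : 1 ≤ N) (k : ℕ) :
    DD p ((p : ℤ) ^ 2 * (N : ℤ) ^ 2 * (2 * N).choose N) (PowerSeries.coeff k (E p hp.ne_zero N)) := by
  rw [E, map_sub, S, PowerSeries.coeff_mk, PowerSeries.coeff_expand]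
  by_cases hk : p ∣ k
  · rw [if_pos hk, S, PowerSeries.coeff_mk]
    obtain ⟨l, rfl⟩ := hk
    rw [Nat.mul_div_cancel_left l hp.pos]
    rcases Nat.eq_zero_or_pos l with rfl | hl
    · simpa [s] using DD.zero hp _
    · exact s_mult hp hp2 N hN l hl
  · rw [if_neg hk, sub_zero]
    exact (s_prime hp N hN k hk).mono ⟨2, by ring⟩

/-- the general congruence: `x * y = 1` in any commutative ring -/
theorem general {R : Type*} [CommRing R] (x y : R) (hxy : x * y = 1) {p : ℕ} (hp : p.Prime)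
    (hp2 : p ≠ 2) (N : ℕ) (hN : 1 ≤ N) (v : ℕ) (hv : p ^ v ∣ p ^ 2 * N ^ 2 * (2 * N).choose N) :
    ((p : R) ^ v) ∣ (y - x) * T (x + y) (p * N) * (2 + (x ^ p + y ^ p)) ^ N
        - (y ^ p - x ^ p) * T (x ^ p + y ^ p) N * (2 + (x + y)) ^ (p * N) := by
  have h := F_dvd hp N hN ((p : ℤ) ^ 2 * (N : ℤ) ^ 2 * (2 * N).choose N) (E_coeff hp hp2 N hN)
    (v := v) (by exact_mod_cast hv)
  have h2 := eval_dvd x y hxy p N _ h
  push_cast at h2
  exact h2

end Pool.Agent.CBinom
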