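import Mathlib

/-!
Truncated sums of central binomial coefficients: the rational function
`S_n = (1 + x)^(-2n) * ∑_{a < n} C(2n, a) (x^a - x^(2n - a))` and its Taylor coefficients.
-/

namespace Pool.Agent.CBinom

open Finset

/-- the polynomial `∑_{a < n} C(2n, a) (X^a - X^(2n - a))`, over any ring -/
noncomputable def P (R : Type*) [CommRing R] (n : ℕ) : Polynomial R :=
  ∑ a ∈ range n, ((2 * n).choose a : Polynomial R) *
    (Polynomial.X ^ a - Polynomial.X ^ (2 * n - a))

/-- the Taylor coefficients of `S_n` -/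
def s (n k : ℕ) : ℚ :=
  if k = 0 then 1 else
    -((n : ℚ) * ((2 * n).choose n : ℚ)) * (-1) ^ (k + n) * ((n + k - 1).choose (2 * n - 1) : ℚ) / k

/-- the series `S_n` -/
noncomputable def S (n : ℕ) : PowerSeries ℚ := PowerSeries.mk (s n)

/-- the series `(1 + X)^(-m)`, for `m ≥ 1` -/
noncomputable def G (m : ℕ) : PowerSeries ℚ :=
  PowerSeries.mk fun j => (-1) ^ j * ((m - 1 + j).choose (m - 1) : ℚ)

theorem G_mul (m : ℕ) (hm : 1 ≤ m) : (1 + PowerSeries.X : PowerSeries ℚ) ^ m * G m = 1 := by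
  obtain ⟨d, rfl⟩ := Nat.exists_eq_succ_of_ne_zero (by omega : m ≠ 0)
  have h := PowerSeries.mk_add_choose_mul_one_sub_pow_eq_one ℚ (d := d)
  have h2 := congrArg (PowerSeries.rescale (-1 : ℚ)) h
  rw [map_mul, map_pow, map_sub, map_one, PowerSeries.rescale_X] at h2
  have e1 : (1 - PowerSeries.C (-1 : ℚ) * PowerSeries.X : PowerSeries ℚ) = 1 + PowerSeries.X := by
    rw [map_neg, map_one]
    ring
  have e2 : PowerSeries.rescale (-1 : ℚ) (PowerSeries.mk fun n => ((d + n).choose d : ℚ))
      = G (d + 1) := by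
    ext j
    rw [PowerSeries.coeff_rescale, PowerSeries.coeff_mk, G, PowerSeries.coeff_mk]
    simp
  rw [e1, e2] at h2
  rw [mul_comm]
  exact h2


theorem S_derivative (n : ℕ) (hn : 1 ≤ n) :
    PowerSeries.derivative ℚ (S n)
      = PowerSeries.C (-((n : ℚ) * ((2 * n).choose n : ℚ))) * (PowerSeries.X ^ (n - 1) * G (2 * n)) := by
  ext k
  rw [PowerSeries.coeff_derivative, S, PowerSeries.coeff_mk, s, if_neg (Nat.succ_ne_zero k),
    PowerSeries.coeff_C_mul, PowerSeries.coeff_X_pow_mul']
  have hk : ((k : ℚ) + 1) ≠ 0 := by positivity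
  by_cases h : n - 1 ≤ k
  · rw [if_pos h, G, PowerSeries.coeff_mk]
    obtain ⟨j, hj⟩ := Nat.exists_eq_add_of_le h
    have e1 : n + (k + 1) - 1 = 2 * n - 1 + j := by omega
    have e2 : k - (n - 1) = j := by omega
    rw [e1, e2]
    have e3 : k + 1 + n = j + 2 * n := by omega
    rw [e3, pow_add, pow_mul]
    push_cast
    field_simp
    ring
  · rw [if_neg h]
    have : (n + (k + 1) - 1).choose (2 * n - 1) = 0 := Nat.choose_eq_zero_of_lt (by omega)
    rw [this]
    simp

/-- a series with `(1 + X) H' = m H` and constant term `0` vanishes -/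
theorem ode_unique (m : ℕ) (H : PowerSeries ℚ)
    (h0 : PowerSeries.coeff 0 H = 0)
    (h : (1 + PowerSeries.X) * PowerSeries.derivative ℚ H = PowerSeries.C (m : ℚ) * H) : H = 0 := by
  have key : ∀ k, PowerSeries.coeff k H = 0 := by
    intro k
    induction k with
    | zero => exact h0
    | succ k ih =>
      have e := congrArg (PowerSeries.coeff k) h
      rw [add_mul, one_mul, map_add, PowerSeries.coeff_C_mul, ih, mul_zero,
        PowerSeries.coeff_derivative] at e
      have e2 : PowerSeries.coeff k (PowerSeries.X * PowerSeries.derivative ℚ H) = 0 := by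
        rcases k with _ | k
        · simp
        · rw [PowerSeries.coeff_succ_X_mul, PowerSeries.coeff_derivative]
          rw [show PowerSeries.coeff (k + 1) H = 0 from ih]
          simp
      rw [e2, add_zero] at e
      have hk : ((k : ℚ) + 1) ≠ 0 := by positivity
      exact (mul_eq_zero.mp e).resolve_right hk
  ext k
  rw [key k, map_zero]


theorem choose_step (n a : ℕ) :
    ((2 * n - a : ℕ) : ℚ) * ((2 * n).choose a : ℚ) = ((a : ℚ) + 1) * ((2 * n).choose (a + 1) : ℚ) := by
  have h := Nat.choose_succ_right_eq (2 * n) a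
  have h2 : ((2 * n).choose (a + 1) * (a + 1) : ℕ) = (2 * n).choose a * (2 * n - a) := h
  have h3 : (((2 * n).choose (a + 1) * (a + 1) : ℕ) : ℚ) = (((2 * n).choose a * (2 * n - a) : ℕ) : ℚ) := by
    rw [h2]
  push_cast at h3
  linarith

/-- the first half of the telescoping sum -/
theorem half1 (n m : ℕ) (hm : m ≤ 2 * n) :
    (1 + Polynomial.X) * Polynomial.derivative
        (∑ a ∈ range m, ((2 * n).choose a : Polynomial ℚ) * Polynomial.X ^ a)
      = Polynomial.C ((2 * n : ℕ) : ℚ) *
          (∑ a ∈ range m, ((2 * n).choose a : Polynomial ℚ) * Polynomial.X ^ a)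
        - Polynomial.C ((m : ℚ) * ((2 * n).choose m : ℚ)) * Polynomial.X ^ (m - 1) := by
  induction m with
  | zero => simp
  | succ m ih =>
    rw [sum_range_succ, map_add, mul_add, ih (by omega), mul_add]
    have e1 : Polynomial.derivative (((2 * n).choose m : Polynomial ℚ) * Polynomial.X ^ m)
        = Polynomial.C (((2 * n).choose m : ℚ) * m) * Polynomial.X ^ (m - 1) := by
      rw [← Polynomial.C_eq_natCast, Polynomial.derivative_C_mul_X_pow]
    rw [e1]
    have hs := choose_step n m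
    have hs2 : ((m : ℚ) + 1) * ((2 * n).choose (m + 1) : ℚ) = (2 * n - m : ℚ) * ((2 * n).choose m : ℚ) := by
      rw [← hs, Nat.cast_sub (by omega)]
      push_cast
      ring
    have e2 : (((m + 1 : ℕ) : ℚ) * ((2 * n).choose (m + 1) : ℚ)) = (2 * n - m : ℚ) * ((2 * n).choose m : ℚ) := by
      rw [← hs2]; push_cast; ring
    rw [e2, Nat.add_sub_cancel]
    rcases m with _ | m
    · simp
    · rw [Nat.add_sub_cancel, pow_succ Polynomial.X m, ← Polynomial.C_eq_natCast]
      push_cast
      simp only [map_mul, map_add, map_sub, map_natCast, map_one, map_ofNat]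
      ring


/-- the second half of the telescoping sum -/
theorem half2 (n m : ℕ) (hm : m ≤ 2 * n) :
    (1 + Polynomial.X) * Polynomial.derivative
        (∑ a ∈ range m, ((2 * n).choose a : Polynomial ℚ) * Polynomial.X ^ (2 * n - a))
      = Polynomial.C ((2 * n : ℕ) : ℚ) *
          (∑ a ∈ range m, ((2 * n).choose a : Polynomial ℚ) * Polynomial.X ^ (2 * n - a))
        + Polynomial.C ((m : ℚ) * ((2 * n).choose m : ℚ)) * Polynomial.X ^ (2 * n - m) := by
  induction m with
  | zero => simp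
  | succ m ih =>
    rw [sum_range_succ, map_add, mul_add, ih (by omega), mul_add]
    obtain ⟨j, hj⟩ := Nat.exists_eq_add_of_le (show m + 1 ≤ 2 * n from hm)
    have ej : 2 * n - m = j + 1 := by omega
    have ej2 : 2 * n - (m + 1) = j := by omega
    have e1 : Polynomial.derivative (((2 * n).choose m : Polynomial ℚ) * Polynomial.X ^ (2 * n - m))
        = Polynomial.C (((2 * n).choose m : ℚ) * ((2 * n - m : ℕ) : ℚ)) *
          Polynomial.X ^ (2 * n - m - 1) := by
      rw [← Polynomial.C_eq_natCast, Polynomial.derivative_C_mul_X_pow]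
    rw [e1]
    have hs := choose_step n m
    have e2 : (((m + 1 : ℕ) : ℚ) * ((2 * n).choose (m + 1) : ℚ))
        = ((2 * n - m : ℕ) : ℚ) * ((2 * n).choose m : ℚ) := by
      rw [hs]; push_cast; ring
    rw [e2, ej, ej2, Nat.add_sub_cancel, ← Polynomial.C_eq_natCast]
    have e3 : ((2 * n : ℕ) : ℚ) = (m : ℚ) + ((j + 1 : ℕ) : ℚ) := by
      have : 2 * n = m + (j + 1) := by omega
      rw [this]; push_cast; ring
    rw [e3]
    simp only [map_mul, map_add, pow_succ]
    ring

theorem P_ode (n : ℕ) (hn : 1 ≤ n) :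
    (1 + Polynomial.X) * Polynomial.derivative (P ℚ n)
      = Polynomial.C ((2 * n : ℕ) : ℚ) * P ℚ n
        - Polynomial.C ((n : ℚ) * ((2 * n).choose n : ℚ)) * (Polynomial.X ^ (n - 1) * (1 + Polynomial.X)) := by
  have h1 := half1 n n (by omega)
  have h2 := half2 n n (by omega)
  have e : P ℚ n = (∑ a ∈ range n, ((2 * n).choose a : Polynomial ℚ) * Polynomial.X ^ a)
      - ∑ a ∈ range n, ((2 * n).choose a : Polynomial ℚ) * Polynomial.X ^ (2 * n - a) := by
    rw [P, ← sum_sub_distrib]
    exact sum_congr rfl fun a _ => by ring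
  rw [e, map_sub, mul_sub, h1, h2]
  have e1 : 2 * n - n = (n - 1) + 1 := by omega
  rw [e1, pow_succ]
  ring

theorem main_series (n : ℕ) (hn : 1 ≤ n) :
    (1 + PowerSeries.X) ^ (2 * n) * S n = (P ℚ n : PowerSeries ℚ) := by
  have hG := G_mul (2 * n) (by omega)
  have hS := S_derivative n hn
  have hP := congrArg (fun f : Polynomial ℚ => (f : PowerSeries ℚ)) (P_ode n hn)
  simp only [Polynomial.coe_mul, Polynomial.coe_add, Polynomial.coe_sub, Polynomial.coe_one,
    Polynomial.coe_X, Polynomial.coe_C, Polynomial.coe_pow, ← PowerSeries.derivative_coe] at hP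
  have hD : PowerSeries.derivative ℚ ((1 + PowerSeries.X : PowerSeries ℚ) ^ (2 * n))
      = PowerSeries.C ((2 * n : ℕ) : ℚ) * (1 + PowerSeries.X) ^ (2 * n - 1) := by
    rw [PowerSeries.derivative_pow, map_add, PowerSeries.derivative_X, PowerSeries.derivative_one]
    push_cast
    simp only [map_mul, map_natCast, map_ofNat]
    ring
  have e1 : (1 + PowerSeries.X : PowerSeries ℚ) * (1 + PowerSeries.X) ^ (2 * n - 1)
      = (1 + PowerSeries.X) ^ (2 * n) := by
    rw [← pow_succ']
    congr 1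
    omega
  have := ode_unique (2 * n) ((1 + PowerSeries.X) ^ (2 * n) * S n - (P ℚ n : PowerSeries ℚ))
    (by
      rw [map_sub, PowerSeries.coeff_zero_eq_constantCoeff]
      simp only [map_mul, map_pow, map_add, map_one, PowerSeries.constantCoeff_X, add_zero,
        one_pow, one_mul]
      have h1 : PowerSeries.constantCoeff (S n) = 1 := by
        rw [← PowerSeries.coeff_zero_eq_constantCoeff_apply, S, PowerSeries.coeff_mk, s, if_pos rfl]
      have h2 : PowerSeries.constantCoeff (P ℚ n : PowerSeries ℚ) = 1 := by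
        rw [← PowerSeries.coeff_zero_eq_constantCoeff_apply, Polynomial.coeff_coe, P,
          Polynomial.finsetSum_coeff]
        obtain ⟨d, rfl⟩ := Nat.exists_eq_succ_of_ne_zero (by omega : n ≠ 0)
        rw [sum_range_succ']
        have hz : ∑ a ∈ range d, (((2 * d.succ).choose (a + 1) : Polynomial ℚ) *
            (Polynomial.X ^ (a + 1) - Polynomial.X ^ (2 * d.succ - (a + 1)))).coeff 0 = 0 := by
          apply sum_eq_zero
          intro a ha
          have ha' : a < d := mem_range.mp ha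
          rw [← Polynomial.C_eq_natCast, Polynomial.coeff_C_mul, Polynomial.coeff_sub,
            Polynomial.coeff_X_pow, Polynomial.coeff_X_pow, if_neg (by omega), if_neg (by omega)]
          ring
        rw [hz, ← Polynomial.C_eq_natCast, Polynomial.coeff_C_mul, Polynomial.coeff_sub,
          Polynomial.coeff_X_pow, Polynomial.coeff_X_pow, if_pos rfl, if_neg (by omega)]
        simp
      rw [h1, h2, sub_self])
    (by
      rw [map_sub, mul_sub, hP, Derivation.leibniz, hD, hS]
      simp only [smul_eq_mul]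
      push_cast at hG e1 ⊢
      simp only [map_neg, map_mul, map_natCast, map_ofNat]
      linear_combination (2 * (n : PowerSeries ℚ)) * S n * e1
        - (n : PowerSeries ℚ) * ((2 * n).choose n : PowerSeries ℚ) * (1 + PowerSeries.X)
          * PowerSeries.X ^ (n - 1) * hG)
  exact sub_eq_zero.mp this


/-- the polynomial `(1 + X)^(2pN) (1 + X^p)^(2N) (S_{pN}(X) - S_N(X^p))` -/
noncomputable def F (p N : ℕ) : Polynomial ℤ :=
  P ℤ (p * N) * (1 + Polynomial.X ^ p) ^ (2 * N)
    - Polynomial.expand ℤ p (P ℤ N) * (1 + Polynomial.X) ^ (2 * (p * N))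

theorem map_P (n : ℕ) : (P ℤ n).map (Int.castRingHom ℚ) = P ℚ n := by
  simp [P, Polynomial.map_sum]

theorem expand_coe (p : ℕ) (hp : p ≠ 0) (f : Polynomial ℚ) :
    PowerSeries.expand p hp (f : PowerSeries ℚ) = ((Polynomial.expand ℚ p f : Polynomial ℚ) : PowerSeries ℚ) := by
  ext k
  rw [PowerSeries.coeff_expand, Polynomial.coeff_coe, Polynomial.coeff_coe,
    Polynomial.coeff_expand (Nat.pos_of_ne_zero hp)]

/-- the difference of the two series -/
noncomputable def E (p : ℕ) (hp : p ≠ 0) (N : ℕ) : PowerSeries ℚ :=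
  S (p * N) - PowerSeries.expand p hp (S N)

theorem F_series (p : ℕ) (hp : p ≠ 0) (N : ℕ) (hN : 1 ≤ N) :
    ((F p N).map (Int.castRingHom ℚ) : PowerSeries ℚ)
      = (((1 + Polynomial.X) ^ (2 * (p * N)) * (1 + Polynomial.X ^ p) ^ (2 * N) : Polynomial ℤ).map
          (Int.castRingHom ℚ) : PowerSeries ℚ) * E p hp N := by
  have h1 := main_series (p * N) (Nat.mul_pos (Nat.pos_of_ne_zero hp) hN)
  have h2 := congrArg (PowerSeries.expand p hp) (main_series N hN)
  rw [expand_coe, map_mul, map_pow, map_add, map_one, PowerSeries.expand_X] at h2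
  simp only [F, Polynomial.map_sub, Polynomial.map_mul, Polynomial.map_pow, Polynomial.map_add,
    Polynomial.map_one, Polynomial.map_X, Polynomial.map_expand, map_P, Polynomial.coe_mul,
    Polynomial.coe_sub, Polynomial.coe_pow, Polynomial.coe_add, Polynomial.coe_one,
    Polynomial.coe_X, E]
  rw [← h1, ← h2]
  ring

/-- `x` is `d` times a `p`-integral rational number -/
def DD (p : ℕ) (d : ℤ) (x : ℚ) : Prop := ∃ a b : ℤ, ¬ (p : ℤ) ∣ b ∧ x * b = d * a

theorem DD.zero {p : ℕ} (hp : p.Prime) (d : ℤ) : DD p d 0 :=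
  ⟨0, 1, fun h => hp.one_lt.ne' (by exact_mod_cast Int.eq_one_of_dvd_one (by positivity) h), by simp⟩

theorem DD.add {p : ℕ} (hp : p.Prime) {d : ℤ} {x y : ℚ} (hx : DD p d x) (hy : DD p d y) :
    DD p d (x + y) := by
  obtain ⟨a, b, hb, h⟩ := hx
  obtain ⟨a', b', hb', h'⟩ := hy
  refine ⟨a * b' + a' * b, b * b', ?_, ?_⟩
  · intro hd
    rcases (Nat.prime_iff_prime_int.mp hp).dvd_or_dvd hd with h1 | h1
    · exact hb h1
    · exact hb' h1
  · push_cast
    linear_combination (b' : ℚ) * h + (b : ℚ) * h'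

theorem DD.mul_int {p : ℕ} {d : ℤ} {x : ℚ} (hx : DD p d x) (z : ℤ) : DD p d ((z : ℚ) * x) := by
  obtain ⟨a, b, hb, h⟩ := hx
  exact ⟨z * a, b, hb, by push_cast; linear_combination (z : ℚ) * h⟩

theorem DD.sum {p : ℕ} (hp : p.Prime) {d : ℤ} {ι : Type*} (t : Finset ι) (f : ι → ℚ)
    (h : ∀ i ∈ t, DD p d (f i)) : DD p d (∑ i ∈ t, f i) :=
  Finset.sum_induction f (DD p d) (fun _ _ hx hy => hx.add hp hy) (DD.zero hp d) h

theorem DD.coeff_mul {p : ℕ} (hp : p.Prime) {d : ℤ} (A : Polynomial ℤ) (B : PowerSeries ℚ)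
    (h : ∀ k, DD p d (PowerSeries.coeff k B)) (k : ℕ) :
    DD p d (PowerSeries.coeff k ((A.map (Int.castRingHom ℚ) : PowerSeries ℚ) * B)) := by
  rw [PowerSeries.coeff_mul]
  apply DD.sum hp
  intro i _
  rw [Polynomial.coeff_coe, Polynomial.coeff_map]
  exact (h i.2).mul_int _

theorem DD.int_dvd {p : ℕ} (hp : p.Prime) {d : ℤ} {z : ℤ} (h : DD p d (z : ℚ)) {v : ℕ}
    (hv : (p : ℤ) ^ v ∣ d) : (p : ℤ) ^ v ∣ z := by
  obtain ⟨a, b, hb, h⟩ := h
  have h1 : z * b = d * a := by exact_mod_cast h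
  have h2 : (p : ℤ) ^ v ∣ z * b := by
    rw [h1]
    exact hv.mul_right a
  have h3 : IsCoprime ((p : ℤ) ^ v) b :=
    IsCoprime.pow_left ((Nat.prime_iff_prime_int.mp hp).irreducible.coprime_iff_not_dvd.mpr hb)
  exact h3.dvd_of_dvd_mul_right h2

/-- if the Taylor coefficients of `E` are divisible by `d`, so is the polynomial `F` -/
theorem F_dvd {p : ℕ} (hp : p.Prime) (N : ℕ) (hN : 1 ≤ N) (d : ℤ)
    (h : ∀ k, DD p d (PowerSeries.coeff k (E p hp.ne_zero N))) {v : ℕ} (hv : (p : ℤ) ^ v ∣ d) :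
    Polynomial.C ((p : ℤ) ^ v) ∣ F p N := by
  rw [Polynomial.C_dvd_iff_dvd_coeff]
  intro k
  have h1 := DD.coeff_mul hp ((1 + Polynomial.X) ^ (2 * (p * N)) * (1 + Polynomial.X ^ p) ^ (2 * N))
    _ h k
  rw [← F_series p hp.ne_zero N hN, Polynomial.coeff_coe, Polynomial.coeff_map] at h1
  exact h1.int_dvd hp hv

end Pool.Agent.CBinom
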