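import Pool.Agent.CBinom.Core

/-!
Evaluation of the polynomial `F` at a unit `x`, and its Taylor coefficients modulo
`p^2 N^2 C(2N, N)`.
-/

namespace Pool.Agent.CBinom

open Finset

section

variable {R : Type*} [CommRing R]

/-- the weighted sum of central binomial coefficients. -/
def T (s : R) (n : ℕ) : R := ∑ k ∈ range n, (2 + s) ^ (n - 1 - k) * ((2 * k).choose k : R)

theorem T_succ (s : R) (n : ℕ) :
    T s (n + 1) = (2 + s) * T s n + ((2 * n).choose n : R) := by
  rw [T, sum_range_succ, T, mul_sum]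
  have e : n + 1 - 1 - n = 0 := by omega
  rw [e, pow_zero, one_mul]
  congr 1
  apply sum_congr rfl
  intro k hk
  have hk' : k < n := mem_range.mp hk
  have e : n + 1 - 1 - k = (n - 1 - k) + 1 := by omega
  rw [e, pow_succ]
  ring

theorem S_eq (x y : R) (hxy : x * y = 1) (n : ℕ) :
    ∑ j ∈ range n, ((2 * n).choose (n + 1 + j) : R) * (x ^ (j + 1) - y ^ (j + 1))
      = (x - y) * T (x + y) n := by
  induction n with
  | zero => simp [T]
  | succ n ih =>
    rw [T_succ]
    have hz : ∀ i, n ≤ i → ((2 * n).choose (n + 1 + i) : R) = 0 := by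
      intro i hi
      rw [Nat.choose_eq_zero_of_lt (by omega), Nat.cast_zero]
    have hc : ∀ j, ((2 * (n + 1)).choose (n + 1 + 1 + j) : R)
        = ((2 * n).choose (n + 1 + (j + 1)) : R) + 2 * ((2 * n).choose (n + 1 + j) : R)
          + ((2 * n).choose (n + j) : R) := by
      intro j
      have e1 : 2 * (n + 1) = (2 * n + 1) + 1 := by ring
      have e2 : n + 1 + 1 + j = (n + j + 1) + 1 := by ring
      have e3 : n + 1 + (j + 1) = (n + j + 1) + 1 := by ring
      have e4 : n + 1 + j = n + j + 1 := by ring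
      rw [e1, e2, e3, e4, Nat.choose_succ_succ, Nat.choose_succ_succ (2 * n) (n + j),
        Nat.choose_succ_succ (2 * n) (n + j + 1)]
      push_cast
      ring
    have A1 : ∑ j ∈ range (n + 1), ((2 * n).choose (n + 1 + (j + 1)) : R) *
        (x ^ (j + 1) - y ^ (j + 1))
        = ∑ j ∈ range n, ((2 * n).choose (n + 1 + j) : R) * (x ^ j - y ^ j) := by
      have a := sum_range_succ' (fun j => ((2 * n).choose (n + 1 + j) : R) * (x ^ j - y ^ j)) (n + 1)
      have b := sum_range_succ (fun j => ((2 * n).choose (n + 1 + j) : R) * (x ^ j - y ^ j)) (n + 1)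
      have c := sum_range_succ (fun j => ((2 * n).choose (n + 1 + j) : R) * (x ^ j - y ^ j)) n
      simp only [pow_zero, sub_self, mul_zero, add_zero] at a
      rw [← a, b, c, hz n le_rfl, hz (n + 1) (Nat.le_succ n)]
      ring
    have A2 : ∑ j ∈ range (n + 1), ((2 * n).choose (n + 1 + j) : R) *
        (x ^ (j + 1) - y ^ (j + 1))
        = ∑ j ∈ range n, ((2 * n).choose (n + 1 + j) : R) * (x ^ (j + 1) - y ^ (j + 1)) := by
      rw [sum_range_succ, hz n le_rfl]
      ring
    have A3 : ∑ j ∈ range (n + 1), ((2 * n).choose (n + j) : R) * (x ^ (j + 1) - y ^ (j + 1))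
        = ∑ j ∈ range n, ((2 * n).choose (n + 1 + j) : R) * (x ^ (j + 2) - y ^ (j + 2))
          + ((2 * n).choose n : R) * (x - y) := by
      rw [sum_range_succ']
      congr 1
      · apply sum_congr rfl
        intro j _
        have e4 : n + 1 + j = n + (j + 1) := by ring
        rw [e4]
      · simp
    have key : ∑ j ∈ range (n + 1), ((2 * (n + 1)).choose (n + 1 + 1 + j) : R) *
        (x ^ (j + 1) - y ^ (j + 1))
        = ∑ j ∈ range n, ((2 * n).choose (n + 1 + j) : R) * (x ^ j - y ^ j)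
          + 2 * ∑ j ∈ range n, ((2 * n).choose (n + 1 + j) : R) * (x ^ (j + 1) - y ^ (j + 1))
          + (∑ j ∈ range n, ((2 * n).choose (n + 1 + j) : R) * (x ^ (j + 2) - y ^ (j + 2))
          + ((2 * n).choose n : R) * (x - y)) := by
      rw [← A1, ← A2, ← A3, mul_sum, ← sum_add_distrib, ← sum_add_distrib]
      apply sum_congr rfl
      intro j _
      rw [hc]
      ring
    rw [key]
    have e5 : ∑ j ∈ range n, ((2 * n).choose (n + 1 + j) : R) * (x ^ j - y ^ j)
        + ∑ j ∈ range n, ((2 * n).choose (n + 1 + j) : R) * (x ^ (j + 2) - y ^ (j + 2))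
        = (x + y) * ∑ j ∈ range n, ((2 * n).choose (n + 1 + j) : R) *
          (x ^ (j + 1) - y ^ (j + 1)) := by
      rw [mul_sum, ← sum_add_distrib]
      apply sum_congr rfl
      intro j _
      linear_combination -((2 * n).choose (n + 1 + j) : R) * (x ^ j - y ^ j) * hxy
    linear_combination e5 + (2 + (x + y)) * ih

/-- the value of `P n` at a unit `x` with inverse `y` -/
theorem aeval_P (x y : R) (hxy : x * y = 1) (n : ℕ) :
    Polynomial.aeval x (P ℤ n) = x ^ n * ((y - x) * T (x + y) n) := by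
  have h := S_eq y x (by rw [mul_comm]; exact hxy) n
  rw [add_comm y x] at h
  rw [← h, P, map_sum, ← sum_range_reflect, mul_sum]
  apply sum_congr rfl
  intro j hj
  have hj' : j < n := mem_range.mp hj
  have e1 : (2 * n).choose (n - 1 - j) = (2 * n).choose (n + 1 + j) := by
    rw [← Nat.choose_symm (by omega : n - 1 - j ≤ 2 * n)]
    congr 1
    omega
  have e2 : x ^ n * y ^ (j + 1) = x ^ (n - 1 - j) := by
    have : x ^ n = x ^ (n - 1 - j) * x ^ (j + 1) := by rw [← pow_add]; congr 1; omega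
    rw [this, mul_assoc, ← mul_pow, hxy, one_pow, mul_one]
  have e3 : x ^ n * x ^ (j + 1) = x ^ (2 * n - (n - 1 - j)) := by
    rw [← pow_add]; congr 1; omega
  rw [map_mul, map_sub, map_pow, map_pow, Polynomial.aeval_X, map_natCast, e1, ← e2, ← e3]
  ring

/-- the value of `F` at a unit `x` with inverse `y` -/
theorem aeval_F (x y : R) (hxy : x * y = 1) (p N : ℕ) :
    Polynomial.aeval x (F p N) = x ^ (2 * (p * N)) *
      ((y - x) * T (x + y) (p * N) * (2 + (x ^ p + y ^ p)) ^ N
        - (y ^ p - x ^ p) * T (x ^ p + y ^ p) N * (2 + (x + y)) ^ (p * N)) := by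
  have hp : x ^ p * y ^ p = 1 := by rw [← mul_pow, hxy, one_pow]
  have h1 : (1 + x) ^ (2 * (p * N)) = x ^ (p * N) * (2 + (x + y)) ^ (p * N) := by
    rw [pow_mul, ← mul_pow]
    congr 1
    linear_combination -hxy
  have h2 : (1 + x ^ p) ^ (2 * N) = x ^ (p * N) * (2 + (x ^ p + y ^ p)) ^ N := by
    rw [pow_mul, pow_mul, ← mul_pow]
    congr 1
    linear_combination -hp
  have h3 : Polynomial.aeval x (Polynomial.expand ℤ p (P ℤ N)) = Polynomial.aeval (x ^ p) (P ℤ N) := by
    rw [Polynomial.expand_aeval]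
  rw [F, map_sub, map_mul, map_mul, h3, aeval_P x y hxy, aeval_P (x ^ p) (y ^ p) hp]
  simp only [map_pow, map_add, map_one, Polynomial.aeval_X]
  rw [h1, h2, ← pow_mul]
  ring

/-- the divisibility of the polynomial, evaluated at a unit -/
theorem eval_dvd (x y : R) (hxy : x * y = 1) (p N : ℕ) (q : ℤ)
    (h : Polynomial.C q ∣ F p N) :
    (q : R) ∣ (y - x) * T (x + y) (p * N) * (2 + (x ^ p + y ^ p)) ^ N
        - (y ^ p - x ^ p) * T (x ^ p + y ^ p) N * (2 + (x + y)) ^ (p * N) := by
  obtain ⟨Q, hQ⟩ := h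
  have h1 := aeval_F x y hxy p N
  rw [hQ, map_mul, Polynomial.aeval_C] at h1
  have h2 : y ^ (2 * (p * N)) * x ^ (2 * (p * N)) = 1 := by
    rw [← mul_pow, mul_comm y x, hxy, one_pow]
  refine ⟨y ^ (2 * (p * N)) * Polynomial.aeval x Q, ?_⟩
  have h3 : (algebraMap ℤ R) q = (q : R) := by simp
  rw [h3] at h1
  linear_combination (-y ^ (2 * (p * N))) * h1 - ((y - x) * T (x + y) (p * N) * (2 + (x ^ p + y ^ p)) ^ N
        - (y ^ p - x ^ p) * T (x ^ p + y ^ p) N * (2 + (x + y)) ^ (p * N)) * h2

end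

end Pool.Agent.CBinom
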