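import Pool.Agent.CBinom.Coef

/-!
The two specialisations of the general congruence at odd primes: cube roots of unity (the sum of
the central binomial coefficients) and fourth roots of unity (the sum with the weight `2^(-k)`).
-/

namespace Pool.Agent.CBinom

open Finset

/-- the integer sum of the central binomial coefficients. -/
def B (n : ℕ) : ℤ := ∑ k ∈ range n, ((2 * k).choose k : ℤ)

theorem T_neg_one {R : Type*} [CommRing R] (n : ℕ) : T (-1 : R) n = ((B n : ℤ) : R) := by
  rw [T, B]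
  have e : (2 + -1 : R) = 1 := by ring
  simp [e]

theorem re_dvd {a b : ℤ} {n : ℤ} {x : QuadraticAlgebra ℤ a b}
    (h : (n : QuadraticAlgebra ℤ a b) ∣ x) : n ∣ x.re ∧ n ∣ x.im := by
  obtain ⟨c, rfl⟩ := h
  constructor
  · simp [QuadraticAlgebra.re_mul]
  · simp [QuadraticAlgebra.im_mul]

theorem odd_B {p : ℕ} (hp : p.Prime) (hp2 : p ≠ 2) (χ : ℤ)
    (hχ : χ = if p = 3 then 0 else if p % 3 = 1 then 1 else -1) (N : ℕ) (hN : 1 ≤ N) (v : ℕ)
    (hv : p ^ v ∣ p ^ 2 * N ^ 2 * (2 * N).choose N) :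
    (p : ℤ) ^ v ∣ B (p * N) - χ * B N := by
  set x : QuadraticAlgebra ℤ (-1) (-1) := ⟨0, 1⟩ with hxdef
  set y : QuadraticAlgebra ℤ (-1) (-1) := ⟨-1, -1⟩ with hydef
  have hxy : x * y = 1 := by
    ext <;> simp [hxdef, hydef, QuadraticAlgebra.re_one, QuadraticAlgebra.im_one]
  have hs : x + y = -1 := by
    ext <;> simp [hxdef, hydef, QuadraticAlgebra.re_one, QuadraticAlgebra.im_one]
  have hre : (y - x).re = -1 := by simp [hxdef, hydef]
  have hx : 1 + x + x ^ 2 = 0 := by linear_combination x * hs - hxy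
  have hy : 1 + y + y ^ 2 = 0 := by linear_combination y * hs - hxy
  have hx3 : x ^ 3 = 1 := by linear_combination (x - 1) * hx
  have hy3 : y ^ 3 = 1 := by linear_combination (y - 1) * hy
  have hgen := general x y hxy hp hp2 N hN v hv
  have extract : ∀ c : ℤ, ((p : QuadraticAlgebra ℤ (-1) (-1)) ^ v) ∣ (y - x) * (c : QuadraticAlgebra ℤ (-1) (-1)) →
      (p : ℤ) ^ v ∣ c := by
    intro c hc
    have hc' : (((p : ℤ) ^ v : ℤ) : QuadraticAlgebra ℤ (-1) (-1)) ∣
        (y - x) * (c : QuadraticAlgebra ℤ (-1) (-1)) := by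
      push_cast
      exact hc
    have h1 := (re_dvd hc').1
    rw [QuadraticAlgebra.re_mul, QuadraticAlgebra.re_intCast, QuadraticAlgebra.im_intCast, hre] at h1
    have h2 : (p : ℤ) ^ v ∣ -c := by
      have e : -1 * c + -1 * (y - x).im * 0 = -c := by ring
      simpa [e] using h1
    exact (dvd_neg.mp h2)
  by_cases hp3 : p = 3
  · rw [if_pos hp3] at hχ
    subst hχ
    subst hp3
    rw [hx3, hy3, sub_self, zero_mul, zero_mul, sub_zero, hs, T_neg_one] at hgen
    have e : (y - x) * ((B (3 * N) : ℤ) : QuadraticAlgebra ℤ (-1) (-1)) * (2 + (1 + 1)) ^ N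
        = (y - x) * ((B (3 * N) * 4 ^ N : ℤ) : QuadraticAlgebra ℤ (-1) (-1)) := by
      push_cast
      norm_num
      ring
    rw [e] at hgen
    have h1 := extract _ hgen
    have hc : IsCoprime ((3 : ℕ) : ℤ) 4 := by norm_num [Int.isCoprime_iff_gcd_eq_one]
    have hc2 : IsCoprime (((3 : ℕ) : ℤ) ^ v) (4 ^ N) := hc.pow
    have h2 := hc2.dvd_of_dvd_mul_right h1
    simpa using h2
  · rw [if_neg hp3] at hχ
    have h0 : p % 3 ≠ 0 := by
      intro h0
      have := (Nat.prime_dvd_prime_iff_eq Nat.prime_three hp).mp (Nat.dvd_of_mod_eq_zero h0)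
      exact hp3 this.symm
    have key : ∀ (u : QuadraticAlgebra ℤ (-1) (-1)) (n k a : ℕ), u ^ 3 = 1 →
        n = 3 * k + a → u ^ n = u ^ a := by
      intro u n k a hu hn
      rw [hn, pow_add, pow_mul, hu, one_pow, one_mul]
    have hpow : (x ^ p + y ^ p = -1) ∧
        (y ^ p - x ^ p = (χ : QuadraticAlgebra ℤ (-1) (-1)) * (y - x)) := by
      have hm : p % 3 = 1 ∨ p % 3 = 2 := by omega
      rcases hm with hm | hm
      · have e : p = 3 * (p / 3) + 1 := by omega
        have ex : x ^ p = x := by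
          rw [key x p _ _ hx3 e, pow_one]
        have ey : y ^ p = y := by
          rw [key y p _ _ hy3 e, pow_one]
        rw [ex, ey, hχ, if_pos hm]
        refine ⟨hs, ?_⟩
        simp
      · have e : p = 3 * (p / 3) + 2 := by omega
        have hx2 : x ^ 2 = y := by linear_combination hx - hs
        have hy2 : y ^ 2 = x := by linear_combination hy - hs
        have ex : x ^ p = y := by
          rw [key x p _ _ hx3 e, hx2]
        have ey : y ^ p = x := by
          rw [key y p _ _ hy3 e, hy2]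
        rw [ex, ey, hχ, if_neg (by omega)]
        constructor
        · rw [add_comm]; exact hs
        · push_cast
          ring
    rw [hpow.1, hpow.2, hs, T_neg_one, T_neg_one] at hgen
    have e1 : (2 + -1 : QuadraticAlgebra ℤ (-1) (-1)) = 1 := by ring
    rw [e1, one_pow, one_pow, mul_one, mul_one] at hgen
    apply extract
    have e2 : (y - x) * ((B (p * N) - χ * B N : ℤ) : QuadraticAlgebra ℤ (-1) (-1))
        = (y - x) * ((B (p * N) : ℤ) : QuadraticAlgebra ℤ (-1) (-1))
          - (χ : QuadraticAlgebra ℤ (-1) (-1)) * (y - x) * ((B N : ℤ) : QuadraticAlgebra ℤ (-1) (-1)) := by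
      push_cast
      ring
    rw [e2]
    exact hgen

/-- the sum with the weight `2^(-k)`, cleared of denominators. -/
def A2 (n : ℕ) : ℤ := ∑ k ∈ range n, 2 ^ (n - 1 - k) * ((2 * k).choose k : ℤ)

theorem T_zero {R : Type*} [CommRing R] (n : ℕ) : T (0 : R) n = ((A2 n : ℤ) : R) := by
  rw [T, A2]
  push_cast
  simp

theorem odd_A {p : ℕ} (hp : p.Prime) (hp2 : p ≠ 2) (χ : ℤ)
    (hχ : χ = if p % 4 = 1 then 1 else -1) (N : ℕ) (hN : 1 ≤ N) (v : ℕ)
    (hv : p ^ v ∣ p ^ 2 * N ^ 2 * (2 * N).choose N) :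
    (p : ℤ) ^ v ∣ A2 (p * N) * 2 ^ N - χ * A2 N * 2 ^ (p * N) := by
  set x : QuadraticAlgebra ℤ (-1) 0 := ⟨0, 1⟩ with hxdef
  set y : QuadraticAlgebra ℤ (-1) 0 := ⟨0, -1⟩ with hydef
  have hxy : x * y = 1 := by
    ext <;> simp [hxdef, hydef, QuadraticAlgebra.re_one, QuadraticAlgebra.im_one]
  have hs : x + y = 0 := by
    ext <;> simp [hxdef, hydef]
  have him : (y - x).im = -2 := by simp [hxdef, hydef]
  have hy : y = -x := by linear_combination hs
  have hx2 : x ^ 2 = -1 := by rw [hy] at hxy; linear_combination -hxy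
  have hgen := general x y hxy hp hp2 N hN v hv
  have extract : ∀ c : ℤ, ((p : QuadraticAlgebra ℤ (-1) 0) ^ v) ∣ (y - x) * (c : QuadraticAlgebra ℤ (-1) 0) →
      (p : ℤ) ^ v ∣ c := by
    intro c hc
    have hc' : (((p : ℤ) ^ v : ℤ) : QuadraticAlgebra ℤ (-1) 0) ∣
        (y - x) * (c : QuadraticAlgebra ℤ (-1) 0) := by
      push_cast
      exact hc
    have h1 := (re_dvd hc').2
    rw [QuadraticAlgebra.im_mul, QuadraticAlgebra.re_intCast, QuadraticAlgebra.im_intCast, him] at h1
    have h2 : (p : ℤ) ^ v ∣ -(2 * c) := by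
      have e : (y - x).re * 0 + -2 * c + 0 * -2 * 0 = -(2 * c) := by ring
      simpa [e] using h1
    have h3 := dvd_neg.mp h2
    have hodd : ¬ 2 ∣ p := by
      intro h
      exact hp2 ((Nat.prime_dvd_prime_iff_eq Nat.prime_two hp).mp h).symm
    have hc2 : IsCoprime ((p : ℤ) ^ v) 2 := by
      apply IsCoprime.pow_left
      rw [Int.isCoprime_iff_gcd_eq_one]
      have := (Nat.Prime.coprime_iff_not_dvd Nat.prime_two).mpr hodd
      rw [Int.gcd_comm]
      exact_mod_cast this
    exact hc2.dvd_of_dvd_mul_left h3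
  have hpow : (x ^ p + y ^ p = 0) ∧
      (y ^ p - x ^ p = (χ : QuadraticAlgebra ℤ (-1) 0) * (y - x)) := by
    have hodd : Odd p := hp.odd_of_ne_two hp2
    have hm : p % 4 = 1 ∨ p % 4 = 3 := by
      have := Nat.odd_iff.mp hodd
      omega
    have hx4 : x ^ 4 = 1 := by
      have : x ^ 4 = (x ^ 2) ^ 2 := by ring
      rw [this, hx2]; ring
    have key : ∀ (n k a : ℕ), n = 4 * k + a → x ^ n = x ^ a := by
      intro n k a hn
      rw [hn, pow_add, pow_mul, hx4, one_pow, one_mul]
    rw [hy, hodd.neg_pow]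
    rcases hm with hm | hm
    · have e : p = 4 * (p / 4) + 1 := by omega
      have ex : x ^ p = x := by
        rw [key p _ _ e, pow_one]
      rw [ex, hχ, if_pos hm]
      constructor
      · ring
      · push_cast; ring
    · have e : p = 4 * (p / 4) + 3 := by omega
      have ex : x ^ p = -x := by
        rw [key p _ _ e]
        have : x ^ 3 = x ^ 2 * x := by ring
        rw [this, hx2]; ring
      rw [ex, hχ, if_neg (by omega)]
      constructor
      · ring
      · push_cast; ring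
  rw [hpow.1, hpow.2, hs, T_zero, T_zero] at hgen
  apply extract
  have e2 : (y - x) * ((A2 (p * N) * 2 ^ N - χ * A2 N * 2 ^ (p * N) : ℤ) : QuadraticAlgebra ℤ (-1) 0)
      = (y - x) * ((A2 (p * N) : ℤ) : QuadraticAlgebra ℤ (-1) 0) * (2 + 0) ^ N
        - (χ : QuadraticAlgebra ℤ (-1) 0) * (y - x) * ((A2 N : ℤ) : QuadraticAlgebra ℤ (-1) 0) * (2 + 0) ^ (p * N) := by
    push_cast
    ring
  rw [e2]
  exact hgen

end Pool.Agent.CBinom
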