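import Pool.Agent.CBinom.OddB

/-!
The rational form: the quotient by `p^2 N^2 C(2N,N)` has denominator prime to `p`; the symbols.
-/

namespace Pool.Agent.CBinom

open Finset

theorem jac3 {p : ℕ} (hp : p.Prime) (hp2 : p ≠ 2) :
    jacobiSym (-3) p = if p = 3 then 0 else if p % 3 = 1 then 1 else -1 := by
  by_cases hp3 : p = 3
  · subst hp3
    rw [if_pos rfl]
    decide +kernel
  rw [if_neg hp3]
  have hodd : Odd p := hp.odd_of_ne_two hp2
  have h3 : Odd 3 := by decide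
  have h1 : jacobiSym (-3) p = jacobiSym p 3 := by
    have e : jacobiSym (-(3 : ℤ)) p = ZMod.χ₄ p * jacobiSym 3 p := jacobiSym.neg 3 hodd
    rw [e]
    have hm : p % 4 = 1 ∨ p % 4 = 3 := by
      have := Nat.odd_iff.mp hodd
      omega
    rcases hm with hm | hm
    · have := jacobiSym.quadratic_reciprocity_one_mod_four' (a := 3) h3 hm
      rw [ZMod.χ₄_nat_one_mod_four hm, one_mul]
      exact_mod_cast this
    · have := jacobiSym.quadratic_reciprocity_three_mod_four (a := 3) (b := p) (by norm_num) hm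
      rw [ZMod.χ₄_nat_three_mod_four hm]
      have h5 : jacobiSym (3 : ℤ) p = -jacobiSym p 3 := by exact_mod_cast this
      rw [h5]
      ring
  rw [h1, jacobiSym.mod_left]
  have h0 : p % 3 ≠ 0 := by
    intro h0
    have := (Nat.prime_dvd_prime_iff_eq Nat.prime_three hp).mp (Nat.dvd_of_mod_eq_zero h0)
    exact hp3 this.symm
  have hm : p % 3 = 1 ∨ p % 3 = 2 := by omega
  rcases hm with hm | hm
  · have : (p : ℤ) % (3 : ℕ) = 1 := by exact_mod_cast hm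
    rw [this, if_pos hm]
    norm_num
  · have : (p : ℤ) % (3 : ℕ) = 2 := by exact_mod_cast hm
    rw [this, if_neg (by omega)]
    norm_num

theorem jac1 {p : ℕ} (hp : p.Prime) (hp2 : p ≠ 2) :
    jacobiSym (-1) p = if p % 4 = 1 then 1 else -1 := by
  have hodd : Odd p := hp.odd_of_ne_two hp2
  rw [jacobiSym.at_neg_one hodd]
  have hm : p % 4 = 1 ∨ p % 4 = 3 := by
    have := Nat.odd_iff.mp hodd
    omega
  rcases hm with hm | hm
  · rw [ZMod.χ₄_nat_one_mod_four hm, if_pos hm]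
  · rw [ZMod.χ₄_nat_three_mod_four hm, if_neg (by omega)]

/-- if the `p`-part of `D` divides `z` and `c` is prime to `p`, then `z/(c D)` has denominator
prime to `p`. -/
theorem den_of_dvd {p : ℕ} (hp : p.Prime) (D c : ℕ) (hD : D ≠ 0) (hc : ¬ p ∣ c) (z : ℤ)
    (h : ∀ v : ℕ, p ^ v ∣ D → (p : ℤ) ^ v ∣ z) (q : ℚ) (hq : q * (c * D) = z) :
    ¬ p ∣ q.den := by
  obtain ⟨v, m, hm, rfl⟩ := Nat.exists_eq_pow_mul_and_not_dvd hD p hp.ne_one
  obtain ⟨w, rfl⟩ := h v (Dvd.intro _ rfl)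
  have hp0 : (p : ℚ) ≠ 0 := by exact_mod_cast hp.ne_zero
  have h2 : q * ((c * m : ℕ) : ℚ) = w := by
    have h3 : (p : ℚ) ^ v * (q * ((c * m : ℕ) : ℚ)) = (p : ℚ) ^ v * w := by
      push_cast at hq ⊢
      linear_combination hq
    exact mul_left_cancel₀ (pow_ne_zero v hp0) h3
  have hcm : ¬ p ∣ c * m := by
    intro h
    rcases (hp.dvd_mul).mp h with h | h
    · exact hc h
    · exact hm h
  have hcm0 : ((c * m : ℕ) : ℚ) ≠ 0 := by
    intro h0
    apply hcm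
    have : c * m = 0 := by exact_mod_cast h0
    rw [this]
    exact dvd_zero p
  have h4 : q = (w : ℚ) / ((c * m : ℕ) : ℤ) := by
    rw [eq_div_iff (by exact_mod_cast hcm0)]
    exact_mod_cast h2
  intro hd
  apply hcm
  have h5 : (q.den : ℤ) ∣ ((c * m : ℕ) : ℤ) := by
    rw [h4, ← Rat.divInt_eq_div]
    exact Rat.den_dvd w _
  have h6 : q.den ∣ c * m := by exact_mod_cast h5
  exact hd.trans h6

theorem A2_eq (n : ℕ) (hn : 1 ≤ n) :
    ((A2 n : ℤ) : ℚ) = 2 ^ (n - 1) * ∑ k ∈ range n, ((2 * k).choose k : ℚ) / 2 ^ k := by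
  rw [A2, Finset.mul_sum]
  push_cast
  refine Finset.sum_congr rfl ?_
  intro k hk
  have hk' := Finset.mem_range.mp hk
  have e : (2 : ℚ) ^ (n - 1) = 2 ^ (n - 1 - k) * 2 ^ k := by
    rw [← pow_add]
    congr 1
    omega
  rw [e]
  have h2 : (2 : ℚ) ^ k ≠ 0 := by positivity
  field_simp

theorem rat_A {p : ℕ} (hp : p.Prime) (hp2 : p ≠ 2) (N : ℕ) (hN : 1 ≤ N) :
    ¬ p ∣ (((∑ k ∈ range (p * N), ((2 * k).choose k : ℚ) / 2 ^ k)
        - (jacobiSym (-1) p : ℚ) * ∑ k ∈ range N, ((2 * k).choose k : ℚ) / 2 ^ k)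
        / ((p : ℚ) ^ 2 * (N : ℚ) ^ 2 * ((2 * N).choose N : ℚ))).den := by
  have hD : p ^ 2 * N ^ 2 * (2 * N).choose N ≠ 0 := by
    have h1 : 0 < (2 * N).choose N := Nat.choose_pos (by omega)
    have h2 : 0 < p := hp.pos
    positivity
  have hc : ¬ p ∣ 2 ^ (p * N + N - 1) := by
    intro h
    have := hp.dvd_of_dvd_pow h
    exact hp2 ((Nat.prime_dvd_prime_iff_eq hp Nat.prime_two).mp this)
  have hpN : 1 ≤ p * N := Nat.one_le_iff_ne_zero.mpr (Nat.mul_ne_zero hp.ne_zero (by omega))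
  apply den_of_dvd hp (p ^ 2 * N ^ 2 * (2 * N).choose N) (2 ^ (p * N + N - 1)) hD hc
    (A2 (p * N) * 2 ^ N - (jacobiSym (-1) p) * A2 N * 2 ^ (p * N))
  · intro v hv
    exact odd_A hp hp2 _ (jac1 hp hp2) N hN v hv
  · have hD' : ((p : ℚ) ^ 2 * (N : ℚ) ^ 2 * ((2 * N).choose N : ℚ)) ≠ 0 := by exact_mod_cast hD
    push_cast
    rw [A2_eq _ hpN, A2_eq _ hN]
    have e1 : (2 : ℚ) ^ (p * N + N - 1) = 2 ^ (p * N - 1) * 2 ^ N := by
      rw [← pow_add]; congr 1; omega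
    have e2 : (2 : ℚ) ^ (p * N + N - 1) = 2 ^ (N - 1) * 2 ^ (p * N) := by
      rw [← pow_add]; congr 1; omega
    set a := ∑ k ∈ range (p * N), ((2 * k).choose k : ℚ) / 2 ^ k
    set b := ∑ k ∈ range N, ((2 * k).choose k : ℚ) / 2 ^ k
    have e3 : (a - (jacobiSym (-1) p : ℚ) * b) / ((p : ℚ) ^ 2 * (N : ℚ) ^ 2 * ((2 * N).choose N : ℚ))
        * (2 ^ (p * N + N - 1) * ((p : ℚ) ^ 2 * (N : ℚ) ^ 2 * ((2 * N).choose N : ℚ)))
        = (a - (jacobiSym (-1) p : ℚ) * b) * 2 ^ (p * N + N - 1) := by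
      rw [mul_comm ((2 : ℚ) ^ (p * N + N - 1)), ← mul_assoc, div_mul_cancel₀ _ hD']
    rw [e3, sub_mul, mul_assoc _ b, mul_comm b]
    nth_rewrite 1 [e1]
    rw [e2]
    ring

end Pool.Agent.CBinom
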