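import Mathlib

/-!
# The exact power of two in the sum of two truncated sums of central binomial coefficients

Let `B n = ∑ k < n, (2 k choose k)`. With `s = y + 1 / y` and the constant term functional `CT`,
`B (2 m) = CT (((s + 2) ^ (2 m) - 1) / (s + 1))` and `B m = - CT ((s ^ (2 m) - 1) / (s + 1))`, so that
`B (2 m) + B m = CT (((s + 2) ^ (2 m) - s ^ (2 m)) / (s + 1)) = 4 ∑ l, 4 ^ l (2 (m - 1 - l) choose m - 1 - l) S l`,
`S l = ∑ j < m, (2 j choose 2 l) = ∑ k, 4 ^ k (l + k choose 2 k) (m choose l + k + 1)`. The terms `l = 0, 1` give the exact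
power of two, the terms `l ≥ 2` are divisible by a higher power.
-/

namespace Pool.Agent.CBinom

namespace CB2

open Finset Polynomial

/-- the constant term of `(y + 1 / y) ^ k` -/
def e (k : ℕ) : ℤ := if 2 ∣ k then (k.choose (k / 2) : ℤ) else 0

theorem coeff_sq (n j : ℕ) : ((1 + X ^ 2 : ℤ[X]) ^ n).coeff j = if 2 ∣ j then (n.choose (j / 2) : ℤ) else 0 := by
  have h : (1 + X ^ 2 : ℤ[X]) ^ n = expand ℤ 2 ((1 + X) ^ n) := by
    simp [map_pow]
  rw [h, coeff_expand (by norm_num)]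
  split_ifs
  · rw [coeff_one_add_X_pow]
  · rfl

theorem choose_two_mul (n r : ℕ) : ((2 * n).choose r : ℤ) =
    ∑ i ∈ range (n + 1), (n.choose i : ℤ) * 2 ^ i *
      (if i ≤ r then ((1 + X ^ 2 : ℤ[X]) ^ (n - i)).coeff (r - i) else 0) := by
  have h1 : ((1 + X : ℤ[X]) ^ (2 * n)).coeff r = ((2 * n).choose r : ℤ) := coeff_one_add_X_pow ..
  have h2 : (1 + X : ℤ[X]) ^ (2 * n) =
      ∑ i ∈ range (n + 1), (C (2 : ℤ) * X) ^ i * (1 + X ^ 2) ^ (n - i) * (n.choose i : ℤ[X]) := by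
    rw [← add_pow, pow_mul]
    congr 1
    simp only [map_ofNat]
    ring
  rw [← h1, h2, finsetSum_coeff]
  apply sum_congr rfl
  intro i _
  have h3 : (C (2 : ℤ) * X) ^ i * (1 + X ^ 2) ^ (n - i) * (n.choose i : ℤ[X]) =
      C ((n.choose i : ℤ) * 2 ^ i) * (X ^ i * (1 + X ^ 2) ^ (n - i)) := by
    rw [mul_pow, C_mul, C_pow]
    simp only [map_natCast]
    ring
  rw [h3, coeff_C_mul, coeff_X_pow_mul']

theorem choose_two_mul' (n r : ℕ) : ((2 * n).choose r : ℤ) =
    ∑ i ∈ range (r + 1), (n.choose i : ℤ) * 2 ^ i *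
      (if 2 ∣ r - i then ((n - i).choose ((r - i) / 2) : ℤ) else 0) := by
  rw [choose_two_mul]
  have h1 : ∑ i ∈ range (n + 1), (n.choose i : ℤ) * 2 ^ i *
      (if i ≤ r then ((1 + X ^ 2 : ℤ[X]) ^ (n - i)).coeff (r - i) else 0) =
      ∑ i ∈ range (n + r + 1), (n.choose i : ℤ) * 2 ^ i *
      (if i ≤ r then ((1 + X ^ 2 : ℤ[X]) ^ (n - i)).coeff (r - i) else 0) := by
    apply sum_subset
    · intro i hi
      simp only [mem_range] at *
      omega
    · intro i _ hi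
      simp only [mem_range, not_lt] at hi
      rw [Nat.choose_eq_zero_of_lt (by omega)]
      simp
  rw [h1]
  symm
  have h2 : ∀ i ∈ range (r + 1), (n.choose i : ℤ) * 2 ^ i *
      (if 2 ∣ r - i then ((n - i).choose ((r - i) / 2) : ℤ) else 0) = (n.choose i : ℤ) * 2 ^ i *
      (if i ≤ r then ((1 + X ^ 2 : ℤ[X]) ^ (n - i)).coeff (r - i) else 0) := by
    intro i hi
    have : i ≤ r := by
      simp only [mem_range] at hi
      omega
    rw [if_pos this, coeff_sq]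
  rw [sum_congr rfl h2]
  apply sum_subset
  · intro i hi
    simp only [mem_range] at *
    omega
  · intro i _ hi
    simp only [mem_range, not_lt] at hi
    rw [if_neg (by omega), mul_zero]

/-- the central binomial coefficient as the constant term of `(y + 2 + 1 / y) ^ n` -/
theorem central (n : ℕ) : ∑ i ∈ range (n + 1), (n.choose i : ℤ) * 2 ^ i * e (n - i) = ((2 * n).choose n : ℤ) := by
  rw [choose_two_mul']
  rfl

/-- the linear functional `X ^ k ↦ e k` (the constant term, `X = y + 1 / y`) -/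
noncomputable def L : ℤ[X] →ₗ[ℤ] ℤ := Polynomial.lsum fun k => (e k) • LinearMap.id

theorem L_mono (a : ℤ) (k : ℕ) : L (C a * X ^ k) = a * e k := by
  rw [L, Polynomial.lsum_apply, C_mul_X_pow_eq_monomial, sum_monomial_index]
  · simp [mul_comm]
  · simp

theorem L_mul (j t : ℕ) : L ((X + 2) ^ j * X ^ t) =
    ∑ i ∈ range (j + 1), (j.choose i : ℤ) * 2 ^ i * e (j + t - i) := by
  have h : ((X + 2 : ℤ[X]) ^ j * X ^ t) =
      ∑ i ∈ range (j + 1), C ((j.choose i : ℤ) * 2 ^ i) * X ^ (j + t - i) := by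
    rw [add_comm, add_pow, sum_mul]
    apply sum_congr rfl
    intro i hi
    have hi' : i ≤ j := by
      simp only [mem_range] at hi
      omega
    have h1 : j + t - i = (j - i) + t := by omega
    rw [h1, pow_add, C_mul, C_pow]
    simp only [map_natCast, map_ofNat]
    ring
  rw [h, map_sum]
  apply sum_congr rfl
  intro i _
  rw [L_mono]

theorem L_pow (n : ℕ) : L ((X + 2) ^ n) = ((2 * n).choose n : ℤ) := by
  have h := L_mul n 0
  rw [pow_zero, mul_one] at h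
  rw [h, ← central]
  simp

theorem e_even (k : ℕ) : e (2 * k) = ((2 * k).choose k : ℤ) := by
  simp [e]

theorem e_odd {k : ℕ} (h : ¬ 2 ∣ k) : e k = 0 := by
  simp [e, h]

/-- the polynomial identity -/
theorem poly (m : ℕ) : (∑ k ∈ range (2 * m), (X + 2 : ℤ[X]) ^ k) + (1 - X) * ∑ k ∈ range m, X ^ (2 * k) =
    4 * ∑ j ∈ range m, (X + 2) ^ (2 * j) * X ^ (2 * (m - 1 - j)) := by
  have hne : (X + 1 : ℤ[X]) ≠ 0 := by
    have := X_add_C_ne_zero (1 : ℤ)
    simpa using this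
  apply mul_left_cancel₀ hne
  have h1 : ((X + 2 : ℤ[X]) - 1) * ∑ k ∈ range (2 * m), (X + 2 : ℤ[X]) ^ k = (X + 2) ^ (2 * m) - 1 :=
    mul_geom_sum _ _
  have h2 : ((X ^ 2 : ℤ[X]) - 1) * ∑ k ∈ range m, (X ^ 2 : ℤ[X]) ^ k = (X ^ 2) ^ m - 1 :=
    mul_geom_sum _ _
  have h3 : (∑ j ∈ range m, ((X + 2 : ℤ[X]) ^ 2) ^ j * (X ^ 2) ^ (m - 1 - j)) * ((X + 2) ^ 2 - X ^ 2) =
      ((X + 2) ^ 2) ^ m - (X ^ 2) ^ m := by
    have := geom_sum₂_mul ((X + 2 : ℤ[X]) ^ 2) (X ^ 2) m
    exact this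
  simp only [← pow_mul] at h2 h3
  linear_combination h1 - h2 - h3

/-- the sum `∑ j < m, (2 j choose i)` -/
def S (m i : ℕ) : ℤ := ∑ j ∈ range m, ((2 * j).choose i : ℤ)

theorem identity {m : ℕ} (hm : 1 ≤ m) :
    (∑ k ∈ range (2 * m), ((2 * k).choose k : ℤ)) + ∑ k ∈ range m, ((2 * k).choose k : ℤ) =
    4 * ∑ i ∈ range (2 * m - 1), 2 ^ i * e (2 * (m - 1) - i) * S m i := by
  have h := congrArg L (poly m)
  rw [map_add, map_sum] at h
  have h1 : ∀ k ∈ range (2 * m), L ((X + 2) ^ k) = ((2 * k).choose k : ℤ) := fun k _ => L_pow k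
  rw [sum_congr rfl h1] at h
  have h2 : L ((1 - X) * ∑ k ∈ range m, X ^ (2 * k)) = ∑ k ∈ range m, ((2 * k).choose k : ℤ) := by
    rw [mul_sum, map_sum]
    apply sum_congr rfl
    intro k _
    have : ((1 - X) * X ^ (2 * k) : ℤ[X]) = C 1 * X ^ (2 * k) - C 1 * X ^ (2 * k + 1) := by
      rw [C_1]
      ring
    rw [this, map_sub, L_mono, L_mono, e_even, e_odd (by omega)]
    ring
  have h4 : ∀ q : ℤ[X], L (4 * q) = 4 * L q := by
    intro q
    have : (4 * q : ℤ[X]) = (4 : ℤ) • q := by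
      rw [smul_eq_C_mul]
      simp
    rw [this, map_smul, smul_eq_mul]
  rw [h2, h4, map_sum] at h
  rw [h]
  congr 1
  have h5 : ∀ j ∈ range m, L ((X + 2) ^ (2 * j) * X ^ (2 * (m - 1 - j))) =
      ∑ i ∈ range (2 * m - 1), 2 ^ i * e (2 * (m - 1) - i) * ((2 * j).choose i : ℤ) := by
    intro j hj
    have hj' : j < m := by simpa using hj
    rw [L_mul]
    have e1 : 2 * j + 2 * (m - 1 - j) = 2 * (m - 1) := by omega
    rw [e1]
    rw [← sum_subset (s₁ := range (2 * j + 1)) (s₂ := range (2 * m - 1))]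
    · apply sum_congr rfl
      intro i _
      ring
    · intro i hi
      simp only [mem_range] at *
      omega
    · intro i _ hi
      simp only [mem_range, not_lt] at hi
      rw [Nat.choose_eq_zero_of_lt (by omega)]
      simp
  rw [sum_congr rfl h5, sum_comm]
  apply sum_congr rfl
  intro i _
  rw [S, mul_sum]

/-- `x` is `2 ^ k` times an odd number -/
def Val (k : ℕ) (x : ℤ) : Prop := ∃ o : ℤ, Odd o ∧ x = 2 ^ k * o

theorem odd_cop {a : ℤ} (ha : Odd a) (k : ℕ) : IsCoprime ((2 : ℤ) ^ k) a := by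
  apply IsCoprime.pow_left
  rw [Int.isCoprime_iff_gcd_eq_one]
  obtain ⟨b, rfl⟩ := ha
  have : IsCoprime (2 : ℤ) (2 * b + 1) := ⟨-b, 1, by ring⟩
  exact Int.isCoprime_iff_gcd_eq_one.mp this

theorem Val.of_mul {k : ℕ} {a x : ℤ} (ha : Odd a) (h : Val k (a * x)) : Val k x := by
  obtain ⟨o, ho, h⟩ := h
  have h1 : (2 : ℤ) ^ k ∣ a * x := ⟨o, h⟩
  obtain ⟨y, rfl⟩ := (odd_cop ha k).dvd_of_dvd_mul_left h1
  refine ⟨y, ?_, rfl⟩
  have h2 : a * y = o := by
    have : (2 : ℤ) ^ k ≠ 0 := by positivity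
    apply mul_left_cancel₀ this
    rw [← h]
    ring
  rw [← h2] at ho
  exact (Int.odd_mul.mp ho).2

theorem Val.add {k : ℕ} {x y : ℤ} (h : Val k x) (hy : (2 : ℤ) ^ (k + 1) ∣ y) : Val k (x + y) := by
  obtain ⟨o, ho, rfl⟩ := h
  obtain ⟨z, rfl⟩ := hy
  exact ⟨o + 2 * z, ho.add_even (even_two_mul z), by ring⟩

theorem Val.mul {k l : ℕ} {x y : ℤ} (h : Val k x) (h' : Val l y) : Val (k + l) (x * y) := by
  obtain ⟨o, ho, rfl⟩ := h
  obtain ⟨z, hz, rfl⟩ := h'
  exact ⟨o * z, ho.mul hz, by ring⟩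

theorem Val.nat {n : ℕ} (hn : n ≠ 0) : Val (padicValNat 2 n) (n : ℤ) := by
  obtain ⟨k, m, hm, rfl⟩ := Nat.exists_eq_two_pow_mul_odd hn
  have hm0 : m ≠ 0 := by
    rintro rfl
    simp at hm
  have h : padicValNat 2 (2 ^ k * m) = k := by
    rw [padicValNat.mul (by positivity) hm0, padicValNat.prime_pow,
      padicValNat.eq_zero_of_not_dvd (by exact hm.not_two_dvd_nat), add_zero]
  rw [h]
  exact ⟨m, by exact_mod_cast hm, by push_cast; ring⟩

theorem Val.unique {k : ℕ} {n : ℕ} (h : Val k (n : ℤ)) : padicValNat 2 n = k := by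
  obtain ⟨o, ho, h⟩ := h
  have h1 : n = 2 ^ k * o.natAbs := by
    have := congrArg Int.natAbs h
    rw [Int.natAbs_natCast, Int.natAbs_mul, Int.natAbs_pow] at this
    simpa using this
  have ho' : Odd o.natAbs := Int.natAbs_odd.mpr ho
  have h0 : o.natAbs ≠ 0 := by
    intro h0
    rw [h0] at ho'
    simp at ho'
  rw [h1, padicValNat.mul (by positivity) h0, padicValNat.prime_pow,
    padicValNat.eq_zero_of_not_dvd (by exact ho'.not_two_dvd_nat), add_zero]

theorem Val.dvd {k : ℕ} {x : ℤ} (h : Val k x) : (2 : ℤ) ^ k ∣ x := by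
  obtain ⟨o, _, rfl⟩ := h
  exact ⟨o, rfl⟩

theorem hockey (m n : ℕ) : ∑ j ∈ range m, (j.choose n : ℤ) = (m.choose (n + 1) : ℤ) := by
  induction m with
  | zero => simp
  | succ m ih =>
    rw [sum_range_succ, ih, Nat.choose_succ_succ]
    push_cast
    ring

theorem S_eq (m l : ℕ) : S m (2 * l) = ∑ i ∈ range (2 * l + 1), (if 2 ∣ i then
    (2 : ℤ) ^ i * ((l + i / 2).choose i : ℤ) * (m.choose (l + i / 2 + 1) : ℤ) else 0) := by
  have h : ∀ j ∈ range m, ((2 * j).choose (2 * l) : ℤ) = ∑ i ∈ range (2 * l + 1), (if 2 ∣ i then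
    (2 : ℤ) ^ i * ((l + i / 2).choose i : ℤ) * (j.choose (l + i / 2) : ℤ) else 0) := by
    intro j _
    rw [choose_two_mul']
    apply sum_congr rfl
    intro i hi
    have hi' : i ≤ 2 * l := by
      simp only [mem_range] at hi
      omega
    by_cases h2 : 2 ∣ i
    · obtain ⟨k, rfl⟩ := h2
      have e1 : 2 ∣ 2 * l - 2 * k := ⟨l - k, by omega⟩
      have e2 : (2 * l - 2 * k) / 2 = l - k := by omega
      have e3 : 2 * k / 2 = k := by omega
      rw [if_pos e1, if_pos ⟨k, rfl⟩, e2, e3]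
      have h3 := Nat.choose_mul (n := j) (k := l + k) (s := 2 * k) (by omega)
      have e4 : l + k - 2 * k = l - k := by omega
      rw [e4] at h3
      have h4 : ((j.choose (l + k) : ℤ)) * ((l + k).choose (2 * k) : ℤ) =
        (j.choose (2 * k) : ℤ) * ((j - 2 * k).choose (l - k) : ℤ) := by exact_mod_cast h3
      linear_combination -(2 : ℤ) ^ (2 * k) * h4
    · have e1 : ¬ 2 ∣ 2 * l - i := by omega
      rw [if_neg e1, if_neg h2, mul_zero]
  rw [S, sum_congr rfl h, sum_comm]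
  apply sum_congr rfl
  intro i _
  split_ifs
  · rw [← mul_sum, hockey]
  · simp

theorem choose_dvd {m n : ℕ} (hm : m ≠ 0) (hn : n ≠ 0) :
    (2 : ℤ) ^ padicValNat 2 m ∣ 2 ^ padicValNat 2 n * (m.choose n : ℤ) := by
  obtain ⟨o, ho, h⟩ := Val.nat hn
  obtain ⟨m', rfl⟩ := Nat.exists_eq_succ_of_ne_zero hm
  obtain ⟨n', rfl⟩ := Nat.exists_eq_succ_of_ne_zero hn
  have h1 := Nat.add_one_mul_choose_eq m' n'
  have h2 : ((m'.succ : ℕ) : ℤ) * (m'.choose n' : ℤ) = (m'.succ.choose n'.succ : ℤ) * ((n'.succ : ℕ) : ℤ) := by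
    exact_mod_cast h1
  have h3 : (2 : ℤ) ^ padicValNat 2 m'.succ ∣ o * (2 ^ padicValNat 2 n'.succ * (m'.succ.choose n'.succ : ℤ)) := by
    have h4 : (2 : ℤ) ^ padicValNat 2 m'.succ ∣ ((m'.succ : ℕ) : ℤ) * (m'.choose n' : ℤ) :=
      (Val.nat hm).dvd.mul_right _
    have h5 : ((m'.succ : ℕ) : ℤ) * (m'.choose n' : ℤ) =
        o * (2 ^ padicValNat 2 n'.succ * (m'.succ.choose n'.succ : ℤ)) := by
      linear_combination h2 + (m'.succ.choose n'.succ : ℤ) * h
    rw [← h5]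
    exact h4
  exact (odd_cop ho _).dvd_of_dvd_mul_left h3

theorem small {l k : ℕ} (hl : 2 ≤ l) : padicValNat 2 (l + k + 1) + 2 ≤ l + 2 * k + 1 := by
  by_contra hcon
  have h1 : 2 ^ (l + 2 * k) ≤ 2 ^ padicValNat 2 (l + k + 1) := Nat.pow_le_pow_right (by norm_num) (by omega)
  have h2 : 2 ^ padicValNat 2 (l + k + 1) ≤ l + k + 1 := Nat.le_of_dvd (by omega) pow_padicValNat_dvd
  have h3 : ∀ x : ℕ, 2 ≤ x → x + 2 ≤ 2 ^ x := by
    intro x hx
    induction x, hx using Nat.le_induction with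
    | base => norm_num
    | succ x hx ih =>
      rw [pow_succ]
      omega
  have h4 := h3 (l + 2 * k) (by omega)
  omega

theorem S_dvd {m l : ℕ} (hm : m ≠ 0) (hl : 2 ≤ l) :
    (2 : ℤ) ^ (padicValNat 2 m + 2) ∣ 2 ^ l * (l.factorial : ℤ) * S m (2 * l) := by
  rw [S_eq, mul_sum]
  apply dvd_sum
  intro i hi
  split_ifs with h2
  · obtain ⟨k, rfl⟩ := h2
    have e3 : 2 * k / 2 = k := by omega
    rw [e3]
    have h4 := choose_dvd (n := l + k + 1) hm (by omega)
    obtain ⟨x, hx⟩ := h4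
    have h5 := small (k := k) hl
    have h6 : (2 : ℤ) ∣ (l.factorial : ℤ) := by
      exact_mod_cast Nat.dvd_factorial (by norm_num) hl
    obtain ⟨y, hy⟩ := h6
    obtain ⟨d, hd⟩ := Nat.exists_eq_add_of_le h5
    have h7 : (2 : ℤ) ^ l * 2 * 2 ^ (2 * k) = 2 ^ d * (2 ^ padicValNat 2 (l + k + 1) * 4) := by
      have : (2 : ℤ) ^ (l + 2 * k + 1) = 2 ^ (padicValNat 2 (l + k + 1) + 2 + d) := by rw [hd]
      rw [pow_add, pow_add, pow_add, pow_add] at this
      linear_combination this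
    refine ⟨2 ^ d * y * ((l + k).choose (2 * k) : ℤ) * x, ?_⟩
    rw [hy, pow_add]
    linear_combination (y * ((l + k).choose (2 * k) : ℤ) * (m.choose (l + k + 1) : ℤ)) * h7 +
      (2 ^ d * 4 * y * ((l + k).choose (2 * k) : ℤ)) * hx
  · simp

/-- the central binomial coefficient -/
def cb (n : ℕ) : ℤ := ((2 * n).choose n : ℤ)

theorem cb_succ (n : ℕ) : ((n : ℤ) + 1) * cb (n + 1) = 2 * (2 * (n : ℤ) + 1) * cb n := by
  have h := Nat.succ_mul_centralBinom_succ n
  simp only [Nat.centralBinom] at h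
  simp only [cb]
  exact_mod_cast h

theorem descent (m : ℕ) : ∀ l ≤ m, ∃ O : ℤ, Odd O ∧
    2 ^ l * O * cb (m - l) = cb m * (m.descFactorial l : ℤ) := by
  intro l
  induction l with
  | zero => intro _; exact ⟨1, odd_one, by simp⟩
  | succ l ih =>
    intro hl
    obtain ⟨O, hO, h⟩ := ih (by omega)
    obtain ⟨n, hn⟩ := Nat.exists_eq_add_of_le hl
    have e1 : m - l = n + 1 := by omega
    have e2 : m - (l + 1) = n := by omega
    have h2 := cb_succ n
    refine ⟨O * (2 * n + 1), hO.mul ⟨n, rfl⟩, ?_⟩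
    rw [e2, Nat.descFactorial_succ, e1]
    rw [e1] at h
    push_cast
    linear_combination ((n : ℤ) + 1) * h - (2 : ℤ) ^ l * O * h2

/-- the terms of the sum -/
def T (m i : ℕ) : ℤ := 2 ^ i * e (2 * (m - 1) - i) * S m i

theorem T_odd {m i : ℕ} (h : ¬ 2 ∣ i) (hi : i ≤ 2 * (m - 1)) : T m i = 0 := by
  rw [T, e_odd (by omega)]
  simp

theorem T_eq (m l : ℕ) : T m (2 * l) = 2 ^ (2 * l) * cb (m - 1 - l) * S m (2 * l) := by
  have : 2 * (m - 1) - 2 * l = 2 * (m - 1 - l) := by omega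
  rw [T, this, e_even, cb]

theorem T_rel {m l : ℕ} (hl : l + 1 ≤ m) : ∃ O : ℤ, Odd O ∧
    2 * (O * T m (2 * l)) = cb m * (m : ℤ) * ((m - 1).choose l : ℤ) * (2 ^ l * (l.factorial : ℤ) * S m (2 * l)) := by
  obtain ⟨O, hO, h⟩ := descent m (l + 1) hl
  refine ⟨O, hO, ?_⟩
  have e1 : m - (l + 1) = m - 1 - l := by omega
  rw [T_eq]
  rw [e1] at h
  obtain ⟨n, rfl⟩ := Nat.exists_eq_succ_of_ne_zero (by omega : m ≠ 0)
  have h2 : ((n.succ).descFactorial (l + 1) : ℤ) = ((n.succ : ℕ) : ℤ) * ((l.factorial : ℤ) * (n.choose l : ℤ)) := by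
    rw [Nat.succ_descFactorial_succ, Nat.descFactorial_eq_factorial_mul_choose]
    push_cast
    ring
  rw [h2] at h
  have e2 : n.succ - 1 = n := by simp
  rw [e2] at h ⊢
  rw [pow_succ] at h
  rw [two_mul l, pow_add]
  linear_combination (2 : ℤ) ^ l * S n.succ (l + l) * h

theorem T_big {m l : ℕ} (hm : m ≠ 0) (hl : 2 ≤ l) (hlm : l + 1 ≤ m) :
    (2 : ℤ) ^ (padicValNat 2 ((2 * m).choose m) + 2 * padicValNat 2 m + 1) ∣ T m (2 * l) := by
  obtain ⟨O, hO, h⟩ := T_rel hlm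
  have hc : ((2 * m).choose m) ≠ 0 := (Nat.choose_pos (by omega)).ne'
  obtain ⟨x, hx⟩ := (Val.nat hc).dvd
  obtain ⟨y, hy⟩ := (Val.nat hm).dvd
  obtain ⟨z, hz⟩ := S_dvd hm hl
  have hx' : cb m = 2 ^ padicValNat 2 ((2 * m).choose m) * x := hx
  have h2 : (2 : ℤ) ^ (padicValNat 2 ((2 * m).choose m) + 2 * padicValNat 2 m + 1) ∣ O * T m (2 * l) := by
    refine ⟨x * y * ((m - 1).choose l : ℤ) * z, ?_⟩
    have h2 : (2 : ℤ) ≠ 0 := by norm_num
    apply mul_left_cancel₀ h2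
    rw [h, hz, hx', hy]
    simp only [pow_add, two_mul, pow_one]
    ring
  exact (odd_cop hO _).dvd_of_dvd_mul_left h2

theorem T_two {m : ℕ} (hm : 2 ≤ m) :
    (2 : ℤ) ^ (padicValNat 2 ((2 * m).choose m)) ∣ T m 2 := by
  obtain ⟨O, hO, h⟩ := T_rel (m := m) (l := 1) (by omega)
  have hc : ((2 * m).choose m) ≠ 0 := (Nat.choose_pos (by omega)).ne'
  obtain ⟨x, hx⟩ := (Val.nat hc).dvd
  have hx' : cb m = 2 ^ padicValNat 2 ((2 * m).choose m) * x := hx
  have h2 : (2 : ℤ) ^ (padicValNat 2 ((2 * m).choose m)) ∣ O * T m 2 := by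
    refine ⟨x * m * ((m - 1).choose 1 : ℤ) * S m 2, ?_⟩
    have h2 : (2 : ℤ) ≠ 0 := by norm_num
    apply mul_left_cancel₀ h2
    simp only [mul_one] at h
    rw [h, hx']
    simp
    ring
  exact (odd_cop hO _).dvd_of_dvd_mul_left h2

theorem T_big' {m i : ℕ} (hi : 3 ≤ i) (him : i ≤ 2 * (m - 1)) :
    (2 : ℤ) ^ (padicValNat 2 ((2 * m).choose m) + 2 * padicValNat 2 m + 1) ∣ T m i := by
  by_cases h : 2 ∣ i
  · obtain ⟨l, rfl⟩ := h
    exact T_big (by omega) (by omega) (by omega)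
  · rw [T_odd h him]
    exact dvd_zero _

theorem S_zero (m : ℕ) : S m 0 = m := by
  simp [S]

theorem S_two (m : ℕ) : 6 * S m 2 = (m : ℤ) * (m - 1) * (4 * m - 5) := by
  induction m with
  | zero => simp [S]
  | succ m ih =>
    have h : S (m + 1) 2 = S m 2 + ((2 * m).choose 2 : ℤ) := by
      rw [S, sum_range_succ, ← S]
    have h2 : 2 * ((2 * m).choose 2 : ℤ) = 2 * m * (2 * m - 1) := by
      have h3 := Nat.choose_two_right (2 * m)
      rcases Nat.eq_zero_or_pos m with rfl | hm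
      · simp
      · have h4 : (2 * m).choose 2 = m * (2 * m - 1) := by
          rw [h3, mul_assoc, Nat.mul_div_cancel_left _ (by norm_num)]
        rw [h4]
        push_cast [Nat.cast_sub (by omega : 1 ≤ 2 * m)]
        ring
    rw [h]
    push_cast
    linear_combination ih + 3 * h2

theorem T_zero {m : ℕ} (hm : 1 ≤ m) : 2 * (2 * (m : ℤ) - 1) * T m 0 = cb m * (m : ℤ) ^ 2 := by
  obtain ⟨n, rfl⟩ := Nat.exists_eq_succ_of_ne_zero (by omega : m ≠ 0)
  have h := cb_succ n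
  have h1 := T_eq n.succ 0
  rw [mul_zero] at h1
  rw [h1, S_zero]
  simp only [pow_zero, one_mul, Nat.succ_eq_add_one, Nat.add_sub_cancel, Nat.sub_zero]
  push_cast
  linear_combination -((n : ℤ) + 1) * h

theorem T_zero_two (k : ℕ) : 3 * ((4 * (k : ℤ) + 3) * (4 * k + 1)) * (T (2 * k + 2) 0 + T (2 * k + 2) 2) =
    cb (2 * k + 2) * (2 * (k : ℤ) + 2) ^ 2 * (16 * (k : ℤ) ^ 3 + 22 * k ^ 2 + 16 * k + 3) := by
  have h1 := cb_succ (2 * k + 1)
  have h2 := cb_succ (2 * k)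
  have h3 := T_eq (2 * k + 2) 0
  have h4 := T_eq (2 * k + 2) 1
  have h5 := S_two (2 * k + 2)
  simp only [mul_zero, mul_one, S_zero, pow_zero, one_mul] at h3 h4
  have e1 : 2 * k + 2 - 1 - 0 = 2 * k + 1 := by omega
  have e2 : 2 * k + 2 - 1 - 1 = 2 * k := by omega
  rw [e1] at h3
  rw [e2] at h4
  rw [h3, h4]
  push_cast at *
  have h6 : (2 : ℤ) ≠ 0 := by norm_num
  apply mul_left_cancel₀ h6
  have e3 : (2 * (k : ℤ) + 1 + 1) = 2 * k + 2 := by ring
  have e4 : 2 * k + 1 + 1 = 2 * k + 2 := by ring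
  rw [e4] at h1
  linear_combination (-(3 * (4 * (k : ℤ) + 1) * (2 * k + 2)) - (2 * (k : ℤ) + 1) * (2 * k + 1) * (2 * k + 2) * (8 * k + 3)) * h1
    - (4 * k + 3) * 2 * (2 * k + 2) * (2 * k + 1) * (8 * k + 3) * h2
    + 4 * (4 * k + 3) * (4 * k + 1) * cb (2 * k) * h5


/-- the exact power of two, in terms of the central binomial coefficient -/
theorem even_val {m : ℕ} (hm : m ≠ 0) (he : Even m) :
    Val (padicValNat 2 ((2 * m).choose m) + 2 * padicValNat 2 m)
      (∑ i ∈ range (2 * m - 1), T m i) := by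
  obtain ⟨k', hk'⟩ := he
  obtain ⟨k, rfl⟩ := Nat.exists_eq_succ_of_ne_zero (by omega : k' ≠ 0)
  have hmk : m = 2 * k + 2 := by omega
  have e1 : 2 * m - 1 = 4 * k + 3 := by omega
  rw [e1, sum_range_succ', sum_range_succ', sum_range_succ']
  have e0 : (T m (0 + 1) : ℤ) = 0 := T_odd (by norm_num) (by omega)
  have e2 : T m (0 + 1 + 1) = T m 2 := rfl
  rw [e0, e2]
  have hV : Val (padicValNat 2 ((2 * m).choose m) + 2 * padicValNat 2 m) (T m 0 + T m 2) := by
    have h := T_zero_two k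
    rw [← hmk] at h
    have ho1 : Odd (3 * ((4 * (k : ℤ) + 3) * (4 * k + 1))) := by
      refine Odd.mul ⟨1, by norm_num⟩ (Odd.mul ⟨2 * k + 1, by ring⟩ ⟨2 * k, by ring⟩)
    apply Val.of_mul ho1
    rw [h]
    have ho2 : Odd (16 * (k : ℤ) ^ 3 + 22 * k ^ 2 + 16 * k + 3) :=
      ⟨8 * k ^ 3 + 11 * k ^ 2 + 8 * k + 1, by ring⟩
    have hc : ((2 * m).choose m) ≠ 0 := (Nat.choose_pos (by omega)).ne'
    have v1 : Val (padicValNat 2 ((2 * m).choose m)) (cb m) := Val.nat hc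
    have v2 : Val (padicValNat 2 m) (m : ℤ) := Val.nat hm
    have v3 : Val 0 (16 * (k : ℤ) ^ 3 + 22 * k ^ 2 + 16 * k + 3) := ⟨_, ho2, by ring⟩
    have v4 := (v1.mul (v2.mul v2)).mul v3
    have e5 : (2 * (k : ℤ) + 2) = (m : ℤ) := by rw [hmk]; push_cast; ring
    rw [e5, pow_two]
    rw [two_mul (padicValNat 2 m)]
    exact v4
  have hD : (2 : ℤ) ^ (padicValNat 2 ((2 * m).choose m) + 2 * padicValNat 2 m + 1) ∣
      ∑ i ∈ range (4 * k), T m (i + 1 + 1 + 1) := by
    apply dvd_sum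
    intro i hi
    have hi' : i < 4 * k := by simpa using hi
    exact T_big' (by omega) (by omega)
  have := hV.add hD
  convert this using 1
  ring

theorem odd_val {m : ℕ} (ho : Odd m) :
    Val (padicValNat 2 ((2 * m).choose m)) (2 * ∑ i ∈ range (2 * m - 1), T m i) := by
  obtain ⟨k, hk⟩ := ho
  have hm : m ≠ 0 := by omega
  have e1 : 2 * m - 1 = 4 * k + 1 := by omega
  rw [e1, sum_range_succ']
  have hV : Val (padicValNat 2 ((2 * m).choose m)) (2 * T m 0) := by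
    have h := T_zero (m := m) (by omega)
    have ho1 : Odd (2 * (m : ℤ) - 1) := ⟨m - 1, by ring⟩
    apply Val.of_mul ho1
    have e2 : (2 * (m : ℤ) - 1) * (2 * T m 0) = cb m * (m : ℤ) ^ 2 := by
      rw [← h]
      ring
    rw [e2]
    have hc : ((2 * m).choose m) ≠ 0 := (Nat.choose_pos (by omega)).ne'
    have v1 : Val (padicValNat 2 ((2 * m).choose m)) (cb m) := Val.nat hc
    have v2 : Val 0 ((m : ℤ) ^ 2) := by
      refine ⟨(m : ℤ) ^ 2, ?_, by ring⟩
      apply Odd.pow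
      rw [hk]
      exact ⟨k, by push_cast; ring⟩
    exact v1.mul v2
  have hD : (2 : ℤ) ^ (padicValNat 2 ((2 * m).choose m) + 1) ∣
      2 * ∑ i ∈ range (4 * k), T m (i + 1) := by
    rw [pow_succ, mul_comm]
    apply mul_dvd_mul_left
    apply dvd_sum
    intro i hi
    have hi' : i < 4 * k := by simpa using hi
    rcases Nat.lt_or_ge i 2 with h2 | h2
    · interval_cases i
      · rw [T_odd (by norm_num) (by omega)]
        exact dvd_zero _
      · exact T_two (by omega)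
    · have h3 := T_big' (m := m) (i := i + 1) (by omega) (by omega)
      refine Dvd.dvd.trans ?_ h3
      apply pow_dvd_pow
      omega
  have := hV.add hD
  convert this using 1
  ring

theorem digits_cb {m : ℕ} (hm : m ≠ 0) : padicValNat 2 ((2 * m).choose m) = (Nat.digits 2 m).sum := by
  have h := sub_one_mul_padicValNat_choose_eq_sub_sum_digits' (p := 2) (k := m) (n := m)
  have e1 : m + m = 2 * m := by ring
  rw [e1] at h
  have h2 : (Nat.digits 2 (2 * m)).sum = (Nat.digits 2 m).sum := by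
    have := Nat.digits_add_two_add_one
    rw [Nat.digits_def' (by norm_num) (by omega)]
    simp
  rw [h2] at h
  omega

end CB2

/-- For all `m ≥ 1` the exact power of `2` that divides `B (2 m) + B m`, where `B n` is the sum of the first `n` central
binomial coefficients: the exponent is the binary digit sum of `m`, plus `2 + 2 v₂(m)` for even `m`, plus `1` for odd `m`. -/
theorem two_digits (m : ℕ) (hm : 1 ≤ m) :
    padicValNat 2 (∑ k ∈ Finset.range (2 * m), Nat.choose (2 * k) k + ∑ k ∈ Finset.range m, Nat.choose (2 * k) k) =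
      (Nat.digits 2 m).sum + if Even m then 2 + 2 * padicValNat 2 m else 1 := by
  have hid := CB2.identity hm
  have hm0 : m ≠ 0 := by omega
  apply CB2.Val.unique
  push_cast
  rw [hid]
  have hT : ∑ i ∈ Finset.range (2 * m - 1), 2 ^ i * CB2.e (2 * (m - 1) - i) * CB2.S m i =
    ∑ i ∈ Finset.range (2 * m - 1), CB2.T m i := rfl
  rw [hT]
  split_ifs with he
  · obtain ⟨o, ho, h⟩ := CB2.even_val hm0 he
    refine ⟨o, ho, ?_⟩
    rw [h, CB2.digits_cb hm0]
    simp only [pow_add]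
    ring
  · obtain ⟨o, ho, h⟩ := CB2.odd_val (Nat.not_even_iff_odd.mp he)
    refine ⟨o, ho, ?_⟩
    rw [CB2.digits_cb hm0] at h
    have : (4 : ℤ) * ∑ i ∈ Finset.range (2 * m - 1), CB2.T m i =
      2 * (2 * ∑ i ∈ Finset.range (2 * m - 1), CB2.T m i) := by ring
    rw [this, h, pow_succ]
    ring

/-- The exact law at the prime `2`: `v₂(B (2 N) + B N) = v₂(N ^ 2 (2 N choose N)) + 2` for even `N`, and `+ 1` for odd `N`. -/
theorem two_exact (N : ℕ) (hN : 1 ≤ N) :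
    padicValNat 2 (∑ k ∈ Finset.range (2 * N), Nat.choose (2 * k) k + ∑ k ∈ Finset.range N, Nat.choose (2 * k) k) =
      padicValNat 2 (N ^ 2 * Nat.choose (2 * N) N) + if Even N then 2 else 1 := by
  have hN0 : N ≠ 0 := by omega
  have hc : ((2 * N).choose N) ≠ 0 := (Nat.choose_pos (by omega)).ne'
  rw [two_digits N hN, padicValNat.mul (pow_ne_zero _ hN0) hc, padicValNat.pow, CB2.digits_cb hN0]
  split_ifs with h
  · omega
  · rw [padicValNat.eq_zero_of_not_dvd (fun h2 => h (even_iff_two_dvd.mpr h2))]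
    omega

/-- The congruence at the prime `2`, in the form of `odd_B`: modulo `4 N ^ 2 (2 N choose N)` for even `N`, modulo
`2 (2 N choose N)` for odd `N` (up to odd factors). -/
theorem two_dvd (N : ℕ) (hN : 1 ≤ N) (v : ℕ)
    (hv : 2 ^ v ∣ (if Even N then 4 else 2) * N ^ 2 * Nat.choose (2 * N) N) :
    (2 : ℤ) ^ v ∣ (∑ k ∈ Finset.range (2 * N), (Nat.choose (2 * k) k : ℤ)) + ∑ k ∈ Finset.range N, (Nat.choose (2 * k) k : ℤ) := by
  have hN0 : N ≠ 0 := by omega
  have hc : ((2 * N).choose N) ≠ 0 := (Nat.choose_pos (by omega)).ne'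
  have h := two_exact N hN
  have hx : N ^ 2 * Nat.choose (2 * N) N ≠ 0 := mul_ne_zero (pow_ne_zero _ hN0) hc
  have hval : padicValNat 2 ((if Even N then 4 else 2) * N ^ 2 * Nat.choose (2 * N) N) =
      padicValNat 2 (N ^ 2 * Nat.choose (2 * N) N) + if Even N then 2 else 1 := by
    rw [mul_assoc]
    split_ifs
    · have : (4 : ℕ) = 2 ^ 2 := by norm_num
      rw [this, padicValNat.mul (by norm_num) hx, padicValNat.prime_pow]
      ring
    · have : (2 : ℕ) = 2 ^ 1 := by norm_num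
      rw [padicValNat.mul (by norm_num) hx]
      have h1 : padicValNat 2 2 = 1 := by simp
      rw [h1]
      ring
  have hne : (if Even N then 4 else 2) * N ^ 2 * Nat.choose (2 * N) N ≠ 0 := by
    rw [mul_assoc]
    refine mul_ne_zero ?_ hx
    split_ifs <;> norm_num
  have hv' := (padicValNat_dvd_iff_le (p := 2) hne).mp hv
  rw [hval, ← h] at hv'
  have h2 : 2 ^ v ∣ ∑ k ∈ Finset.range (2 * N), Nat.choose (2 * k) k + ∑ k ∈ Finset.range N, Nat.choose (2 * k) k :=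
    (pow_dvd_pow 2 hv').trans pow_padicValNat_dvd
  exact_mod_cast h2

end Pool.Agent.CBinom
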